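import Pool.Agent.Lib.MP_696deb_nt.CV.Gov0
import Pool.Agent.Lib.MP_696deb_nt.CW.S0
import Pool.Agent.Lib.MP_696deb_nt.CY.Box
import Pool.Agent.Lib.MP_696deb_nt.CV.Z1

/-! Selmer patterns, relaxed lifts, fibres, colours and cubes: the definitions. -/

set_option autoImplicit false
set_option linter.unusedSectionVars false

open scoped Classical
open Finset

namespace Pool.Agent.Lib.MP_696deb_nt.CU.CV.Cy

theorem mu_mem_KK [δ : Qd] (n e : ℕ) : (fun g => mu e g - 1) ∈ KK n e :=
  ⟨kc_mu e ⊤, fun q hq k => by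
    have d : ¬ q ∣ MM := fun d => k (d.mul_right n)
    exact sub_eq_zero.2 (mu_ine hq d (sq_ine hq (ne_three d)) e)⟩

theorem dvd_sq [δ : Qd] {q m : ℕ} (hq : q.Prime) : q ∣ MM * m ^ 2 ↔ q ∣ MM * m := by
  rw [hq.dvd_mul, hq.dvd_mul, hq.prime.dvd_pow_iff_dvd two_ne_zero]

theorem kk_two (m : ℕ) (g : Gam) : kk (m ^ 2) g = -kk m g := Cw.kk_two m g

/-- The local condition of level one at a prime that divides the twist exactly twice. -/
theorem f1 [δ : Qd] {n e q : ℕ} {k : Gam → F3} (hq : q.Prime) (h3 : ¬ q ∣ MM)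
    (hn : kk n (sq q) = 1) (hk : Kc e (Gq q) k) :
    Loc (n ^ 2) e q (kC k) ↔ (mu e (fq q) = 1 → k (fq q) = k (sq q) * kk n (fq q)) := by
  have q3 := ne_three h3
  by_cases h1 : mu (e + 1) (fq q) = 1
  · rw [loc_iff fun g hg => act_one' hq h3 h1 _ hg, Cw.f1_one hq q3 hn ((kc_one hq h3 h1).1 hk),
      or_iff_not_imp_left]
    exact imp_congr_left ⟨fun h => by_contra fun k => h (mod_two hq h3 (h1 ▸ k)),
      fun h k => by have := mod_one hq h3 h h1; omega⟩
  have hs := hk.ev hq h3 h1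
  by_cases h0 : mu e (fq q) = 1
  · refine ⟨fun h _ => Cw.f1_zero hq q3 hn ((loc_iff fun g hg => act_zero hq h3 h0 _ hg).1 h)
      (fq_mem hq), fun h => ⟨0, fun g hg => ?_⟩⟩
    rw [cob_zero, kC, hk.det hq h3 hs (by rw [h h0, hs, zero_mul]) hg, map_zero]
  · refine iff_of_true ⟨kT (k (fq q)), fun g hg => ?_⟩ fun h => absurd h h0
    rw [cob_kT]
    refine congrArg kT (sub_eq_zero.1 ((hk.sub ((kc_mu e _).smul (k (fq q)))).det hq h3 ?_ ?_ hg))
    · rw [Pi.sub_apply, hs, mu_ine hq h3 (sq_ine hq q3), sub_self, mul_zero, sub_zero]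
    · rw [Pi.sub_apply, (mu_cases _ _).resolve_left h0]
      generalize k (fq q) = t
      revert t
      decide

namespace Bx

variable [δ : Qd] (B : Bx)

/-- The cocycles on the side `e` that are unramified outside of the small primes. -/
noncomputable def W (e : ℕ) : Submodule F3 (Gam → F3) :=
  AddSubgroup.toZModSubmodule 3 (KK (max B.N0 1) e)

instance (e : ℕ) : Finite (B.W e) := finite_KK (by omega : max B.N0 1 ≠ 0) e

noncomputable instance (e : ℕ) : Fintype (B.W e) := Fintype.ofFinite _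

/-- Patterns on the side `e`: a cocycle of the small primes and exponents at the large primes. -/
abbrev Pe (e : ℕ) := B.W e × (Fin B.r → F3)

/-- The cocycle of a pattern. -/
noncomputable def kE (e : ℕ) (x : B.Pt) : B.Pe e →+ (Gam → F3) :=
  AddMonoidHom.mk' (fun a => a.1.1 + ∑ j, a.2 j • kap e (x j)) fun a b => by
    simp only [Prod.fst_add, Prod.snd_add, Pi.add_apply, add_smul, sum_add_distrib,
      Submodule.coe_add]
    abel

/-- The patterns that are supported on the indices that can ramify. -/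
noncomputable def Sup (e : ℕ) : AddSubgroup (B.Pe e) where
  carrier := {a | ∀ j ∉ B.P e, a.2 j = 0}
  zero_mem' := fun _ _ => rfl
  add_mem' := fun h k j hj => by rw [Prod.snd_add, Pi.add_apply, h j hj, k j hj, add_zero]
  neg_mem' := fun h j hj => by rw [Prod.snd_neg, Pi.neg_apply, h j hj, neg_zero]

/-- The Selmer patterns on the side `e`. -/
noncomputable def Ve (e : ℕ) (x : B.Pt) : AddSubgroup (B.Pe e) :=
  B.Sup e ⊓ (Zs (B.nn x) e 1).comap (kM.comp (B.kE e x))

/-- The pattern of the coboundary. -/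
noncomputable def te (e : ℕ) : B.Pe e := (⟨fun g => mu e g - 1, mu_mem_KK _ e⟩, 0)

/-- Its multiples. -/
noncomputable def Le (e : ℕ) : AddSubgroup (B.Pe e) := AddSubgroup.zmultiples (B.te e)

/-- A Selmer pattern that vanishes at all upper indices is a coboundary. -/
def Ge (e : ℕ) (x : B.Pt) : Prop := ∀ a ∈ B.Ve e x, (∀ j ∈ B.Up, a.2 j = 0) → a ∈ B.Le e

/-- Patterns on the side one. -/
abbrev Pat := B.Pe 1

noncomputable abbrev kA (x : B.Pt) : B.Pat →+ (Gam → F3) := B.kE 1 x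

noncomputable abbrev V (x : B.Pt) : AddSubgroup B.Pat := B.Ve 1 x

noncomputable abbrev tau : B.Pat := B.te 1

noncomputable abbrev L1 : AddSubgroup B.Pat := B.Le 1

abbrev G0 (x : B.Pt) : Prop := B.Ge 1 x

/-- The same set as a `Finset`. -/
noncomputable def VF (x : B.Pt) : Finset B.Pat := univ.filter (· ∈ B.V x)

/-- The span of `a` and the pattern of the coboundary. -/
noncomputable def L2 (a : B.Pat) : AddSubgroup B.Pat := AddSubgroup.closure {a, B.tau}

/-- The Selmer cocycles of level `l` on the side zero with top digit `a`. -/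
noncomputable def Om (x : B.Pt) (l : ℕ) (a : B.Pat) : Finset (Gam → A) :=
  fs {c | c ∈ Zs (B.nn x) 0 l ∧ th ^ (l - 1) • c = kC (B.kA x a)}

/-- The relaxed lifts of level `l` with top digit `a`. -/
noncomputable def RF (x : B.Pt) (l : ℕ) (a : B.Pat) : Finset (Gam → A) :=
  fs {c | RL (B.nn x) l c ∧ th ^ (l - 1) • c = kC (B.kA x a)}

/-- The number of lifts. -/
noncomputable def wB : ℕ := (WW B.N0).ncard * 3 ^ B.P0.card

/-- The pairing of a lift and a pattern. -/
noncomputable def Dx (x : B.Pt) (c : Gam → A) (b : B.Pat) : F3 := Dl (B.nn x) c (B.kA x b)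

/-- The pairing on the Selmer patterns. -/
noncomputable def CT (x : B.Pt) (a b : B.Pat) : F3 := DD (B.nn x) (kC (B.kA x a)) (B.kA x b)

/-- The radical. -/
def Rad (x : B.Pt) : Set B.Pat := {a | a ∈ B.V x ∧ ∀ b ∈ B.V x, B.CT x a b = 0}

/-- Evaluation at a group element. -/
noncomputable def evl (e : ℕ) (g : Gam) : Module.Dual F3 (B.W e) :=
  (LinearMap.proj g).comp (B.W e).subtype

/-- The type of the level one data. -/
abbrev Lv := (Fin B.r → B.S0 → (Gam → F3) × (Gam → F3) × (Gam → F3)) ×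
  (Fin B.r → F3 × Module.Dual F3 (B.W 0) × Module.Dual F3 (B.W 1)) ×
    (Fin B.r → Fin B.r → F3 × F3 × F3)

/-- The level one data of a point. -/
noncomputable def lv (x : B.Pt) : B.Lv :=
  (fun j q => (H3.rs (Gq q) (kk (x j)), H3.rs (Gq q) (kap 0 (x j)), H3.rs (Gq q) (kap 1 (x j))),
    fun j => (kk B.N0 (fq (x j)), B.evl 0 (fq (x j)), B.evl 1 (fq (x j))),
    fun i j => (kk (x i) (fq (x j)), kap 0 (x i) (fq (x j)), kap 1 (x i) (fq (x j))))

/-- The level one data with the matrix of the pairing. -/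
noncomputable def key (x : B.Pt) : B.Lv × (B.Pat → B.Pat → F3) :=
  (B.lv x, fun a b => if a ∈ B.V x ∧ b ∈ B.V x then B.CT x a b else 0)

/-- The Selmer patterns on the side zero are coboundaries. -/
def G1 (x : B.Pt) : Prop := B.Ve 0 x ≤ B.Le 0

/-- Good points. -/
structure Good (x : B.Pt) : Prop where
  g0 : B.G0 x
  g1 : B.G1 x
  bal : ∀ a ∈ B.Rad x, a ∉ B.L1 → B.Bal a.2

/-- The type of colours. -/
abbrev Col := (B.S0 → A) × (Fin B.r → A) × (Gam → A)

/-- The colour of a cocycle. -/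
noncomputable def col (x : B.Pt) (c : Gam → A) : B.Col :=
  (fun q => c (sq q), fun j => c (sq (x j)), rsM c)

/-- There is a relaxed lift with top digit `a` and colour `γ`. -/
def Has (l : ℕ) (a : B.Pat) (γ : B.Col) (x : B.Pt) : Prop := ∃ c ∈ B.RF x l a, B.col x c = γ

/-- This lift. -/
noncomputable def cg (l : ℕ) (a : B.Pat) (γ : B.Col) (x : B.Pt) : Gam → A :=
  if h : B.Has l a γ x then h.choose else 0

/-- Nondegenerate cubes. -/
structure Cb (S : Finset (Fin B.r)) (x x' : B.Pt) : Prop where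
  wf : B.Wf
  mem : x ∈ B.pts
  mem' : x' ∈ B.pts
  ne : ∀ i ∈ S, x i ≠ x' i

/-- The alternating sum over a cube. -/
noncomputable def Del (c : B.Pt → Gam → A) (S : Finset (Fin B.r)) (x x' : B.Pt) : Gam → A :=
  ∑ y ∈ S.powerset, (-1 : ℤ) ^ y.card • c (y.piecewise x' x)

/-- Properties that pass from all other vertices of a cube to the base vertex. -/
def Closed (S : Finset (Fin B.r)) (P : B.Pt → Prop) : Prop :=
  ∀ x x', B.Cb S x x' → (∀ y ⊆ S, y.Nonempty → P (y.piecewise x' x)) → P x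

/-- The indicator of `Q` is a combination of at most `M` indicators of closed subsets of `Q`. -/
def Comb (S : Finset (Fin B.r)) (M : ℝ) (Q : B.Pt → Prop) : Prop :=
  ∃ (ι : Type) (Γ : Finset ι) (w : ℝ) (P : ι → B.Pt → Prop), 0 ≤ w ∧ w * Γ.card ≤ M ∧
    (∀ γ ∈ Γ, B.Closed S (P γ) ∧ ∀ x ∈ B.pts, P γ x → Q x) ∧
    ∀ x ∈ B.pts, Q x → w * (Γ.filter fun γ => P γ x).card = 1

/-- Directions for a pair of patterns. -/
structure Dir (n : ℕ) (a b : B.Pat) (U : Finset (Fin B.r)) (ia ic : Fin B.r) : Prop where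
  card : U.card = n
  low : U ⊆ B.I 0
  ha : ia ∈ B.Up
  hc : ic ∈ B.Up
  ne : ia ≠ ic
  aU : ∀ i ∈ U, a.2 i = 0
  bU : ∀ i ∈ U, b.2 i = 0
  aa : a.2 ia ≠ 0
  ba : b.2 ia = 0
  bc : b.2 ic ≠ 0
  pa : ia ∈ B.P1
  pc : ic ∈ B.P1

/-- The governing function of a cube. -/
noncomputable def gv (a : B.Pat) (U : Finset (Fin B.r)) (ia : Fin B.r) (x x' : B.Pt) : Gam → F3 :=
  gov U (fun i => kk (x i) - kk (x' i)) (a.2 ia • (kap 1 (x ia) - kap 1 (x' ia)))

/-- The number of Selmer cocycles with a top digit that is not a coboundary. -/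
noncomputable def wt (x : B.Pt) (l : ℕ) : ℕ := ∑ a ∈ B.VF x with a ∉ B.L1, (B.Om x l a).card

end Bx

end Pool.Agent.Lib.MP_696deb_nt.CU.CV.Cy
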