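import Pool.Agent.Lib.MP_696deb_nt.CY.Cb1
import Pool.Agent.Lib.MP_696deb_nt.CV.E8

/-! Closure of cubes and the alternating sum of the pairing. -/

set_option autoImplicit false
set_option linter.unusedSectionVars false

open scoped Classical
open Finset

namespace Pool.Agent.Lib.MP_696deb_nt.CU.CV.Cy

variable [δ : Qd]

theorem loc_alt {ι : Type} {T : Finset ι} {n e q : ℕ} {v : Finset ι → Gam → A}
    (h : ∀ R ⊆ T, Loc n e q (v R)) : Loc n e q fun g => alt T fun R => v R g := by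
  induction T using Finset.induction_on generalizing v with
  | empty => simpa only [alt_empty] using h ∅ Subset.rfl
  | insert i T hi ih =>
    simp only [alt_insert hi, sub_eq_add_neg]
    exact (ih fun R hR => h R (hR.trans (subset_insert _ _))).add
      (ih fun R hR => h _ (insert_subset_insert _ hR)).neg

namespace Bx

variable {B : Bx} {x x' : B.Pt} {l q : ℕ} {a b : B.Pat} {γ : B.Col} {F : B.Lv}
  {S T U w : Finset (Fin B.r)} {ia ic : Fin B.r}

theorem c_third (hS : 3 ≤ S.card) (i j : Fin B.r) : ∃ k ∈ S, k ≠ i ∧ k ≠ j := by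
  obtain ⟨k, hk, h⟩ := exists_mem_notMem_of_card_lt_card
    (s := {i, j}) (t := S) (card_le_two.trans_lt hS)
  exact ⟨k, hk, by simpa using h⟩

theorem c_pw_single {k i : Fin B.r} (h : k ≠ i) : ({k} : Finset _).piecewise x' x i = x i :=
  piecewise_eq_of_notMem _ _ _ fun e => h (mem_singleton.1 e).symm

theorem closed_lv (hS : 3 ≤ S.card) (F : B.Lv) : B.Closed S fun x => B.lv x = F := by
  intro x x' _ h
  have k : ∀ i j, ∃ y : B.Pt, B.lv y = F ∧ y i = x i ∧ y j = x j := fun i j => by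
    obtain ⟨k, hk, h1, h2⟩ := c_third hS i j
    exact ⟨_, h {k} (singleton_subset_iff.2 hk) (singleton_nonempty k), c_pw_single h1,
      c_pw_single h2⟩
  refine Prod.ext (funext fun j => ?_) (Prod.ext (funext fun j => ?_) (funext₂ fun i j => ?_))
  · obtain ⟨y, rfl, e, -⟩ := k j j
    simp only [lv, e]
  · obtain ⟨y, rfl, e, -⟩ := k j j
    simp only [lv, e]
  · obtain ⟨y, rfl, e, e'⟩ := k i j
    simp only [lv, e, e']

theorem c_clo_smul (z : O) (c : Finset (Fin B.r) → Gam → A) (g : Gam) :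
    z • clo T c g = -alt T fun R => if R = ∅ then 0 else z • c R g := by
  rw [clo, smul_neg, smul_alt]
  simp only [smul_ite, smul_zero]

theorem c_loc_clo {n : ℕ} {c : Finset (Fin B.r) → Gam → A}
    (h : ∀ R ⊆ T, R ≠ ∅ → Loc n 1 q (th • c R)) : Loc n 1 q fun g => th • clo T c g := by
  have k := (loc_alt (T := T) (n := n) (e := 1) (q := q)
    (v := fun R => if R = ∅ then 0 else th • c R) fun R hR => by
    split_ifs with h0
    exacts [Loc.zero _ _ _, h R hR h0]).neg
  refine k.congr (fun _ _ => rfl) fun g _ => ?_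
  simp only [c_clo_smul, Pi.neg_apply, ite_apply, Pi.zero_apply, Pi.smul_apply]

/-- The closure of a cube. -/
theorem Wf.closure (hB : B.Wf) (hx : x ∈ B.pts) (hx' : x' ∈ B.pts) (hl : l < S.card)
    (hS : 3 ≤ S.card) (h0 : B.lv x = F)
    (h : ∀ w ⊆ S, w.Nonempty → B.lv (w.piecewise x' x) = F ∧ B.Has l a γ (w.piecewise x' x)) :
    B.Has l a γ x ∧ ∀ g, alt S (fun w => B.cg l a γ (w.piecewise x' x) g) = 0 := by
  set c : Finset (Fin B.r) → Gam → A := fun w => B.cg l a γ (w.piecewise x' x) with hc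
  have h' : ∀ w ⊆ S, w ≠ ∅ → B.Has l a γ (w.piecewise x' x) := fun w hw k =>
    (h w hw (nonempty_iff_ne_empty.2 k)).2
  have hA : ∀ i ∈ S, Abv l S (fun w => B.nn (w.piecewise x' x)) c {i} := fun i _ =>
    hB.abv hx hx' fun w hw k => (h w hw ⟨i, singleton_subset_iff.1 k⟩).2
  have hne : S.Nonempty := card_pos.1 (by omega)
  have s1 : ∀ q : ℕ, q.Prime → clo S c (sq q) = sv γ x q := fun q hq => by
    have k := alt_sv γ x x' q ∅ (T := S) (by omega)
    have k' := clo_eq (c := c) (v := fun R => sv γ (R.piecewise x' x) q) (AddMonoidHom.id A) (sq q)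
      (fun R hR k => (h' R hR k).sq_eq hB (c_pw hx hx' R) hq)
      ((alt_congr fun R _ => by rw [empty_union]).trans k)
    rwa [piecewise_empty] at k'
  have lc : ∀ q : ℕ, q.Prime → ∀ R ⊆ S, R ≠ ∅ →
      (q ∈ B.S0 ∨ ∃ j, R.piecewise x' x j = q ∧ x j = q) → Loc (B.nn x) 1 q (th • c R) :=
    fun q hq R hR k e => ((h' R hR k).spec.1.loc q hq ((hB.c_dvd (c_pw hx hx' R) hq).2
      (e.imp_right fun ⟨j, hj, _⟩ => ⟨j, hj⟩))).congr (hB.lv_kk (c_pw hx hx' R) hx
        ((h R hR (nonempty_iff_ne_empty.2 k)).1.trans h0.symm) e) fun _ _ => rfl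
  have m : clo S c ∈ B.RF x l a := by
    refine (hB.mem_RF hx).2 ⟨⟨⟨?_, fun g => ?_, fun q hq hd => ?_⟩, fun q hq hd => ?_⟩,
      funext fun g => ?_⟩
    · simpa only [piecewise_empty] using clo_coc (hB.c_dirs hx hx' S) hA hl
    · exact clo_eq (c := c) (v := fun _ => 0) (DistribSMul.toAddMonoidHom A (th ^ l)) g
        (fun R hR k => (h' R hR k).spec.1.kil g) (alt_zero fun _ _ => rfl)
    · rw [s1 q hq, hB.sv_zero hx hq hd]
    · rcases (hB.c_dvd hx hq).1 hd with k | ⟨j, rfl⟩
      · exact c_loc_clo fun R hR e => lc q hq R hR e (Or.inl k)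
      by_cases hj : j ∈ S
      · refine (c_loc_clo (T := S.erase j) fun R hR e => lc _ hq R (hR.trans (erase_subset _ _)) e
          (Or.inr ⟨j, piecewise_eq_of_notMem _ _ _ fun k => notMem_erase j S (hR k), rfl⟩)).congr
          (fun _ _ => rfl) fun g _ => ?_
        have z := (hA j hj).blem (hB.c_dirs hx hx' S) (singleton_subset_iff.2 hj)
          (erase_subset j S) (disjoint_singleton_left.2 (notMem_erase j S)) (e := 1)
          (by rw [card_erase_of_mem hj]; omega) g
        rw [pow_one] at z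
        rw [Pi.smul_apply, clo_split hj, smul_add, z, add_zero]
      · exact c_loc_clo fun R hR e => lc _ hq R hR e
          (Or.inr ⟨j, piecewise_eq_of_notMem _ _ _ fun k => hj (hR k), rfl⟩)
    · have k := clo_eq (c := c) (S := S) (v := fun R => kT (B.kA (R.piecewise x' x) a g))
        (DistribSMul.toAddMonoidHom A (th ^ (l - 1))) g
        (fun R hR k => congrFun (h' R hR k).spec.2.1 g) (by
          simp only [c_kA_pw]
          rw [← map_alt, alt_affine (by omega), map_zero])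
      rwa [piecewise_empty] at k
  have e : B.col x (clo S c) = γ := by
    refine Prod.ext (funext fun q => (s1 q (c_S0 q.2)).trans (hB.sv_S0 hx q)) (Prod.ext
      (funext fun j => (s1 _ (hB.c_pr hx j)).trans (hB.sv_pt hx j)) (funext fun g => ?_))
    change rsM _ g = _
    by_cases hg : g ∈ GM
    · rw [rsM_of_mem hg]
      exact clo_eq (c := c) (v := fun _ => γ.2.2 g) (AddMonoidHom.id A) g
        (fun R hR k => (h' R hR k).three_eq hg) (alt_const hne _)
    · rw [rsM_of_notMem hg, ← (h' S Subset.rfl hne.ne_empty).spec.2.2]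
      exact (rsM_of_notMem hg _).symm
  refine ⟨⟨_, m, e⟩, fun g => ?_⟩
  rw [alt_eq_add, piecewise_empty, hB.cg_eq hx m e, clo, neg_add_cancel]

theorem closed_has (hl : l < S.card) (hS : 3 ≤ S.card) (a : B.Pat) (γ : B.Col) (F : B.Lv) :
    B.Closed S fun x => B.lv x = F ∧ B.Has l a γ x := fun x x' hC h =>
  have h0 := closed_lv hS F x x' hC fun y hy k => (h y hy k).1
  ⟨h0, (hC.wf.closure hC.mem hC.mem' hl hS h0 h).1⟩

/-- The local terms over a face whose vertices share the prime `q`. -/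
theorem Wf.face_dq (hB : B.Wf) (hx : x ∈ B.pts) (hx' : x' ∈ B.pts) (hq : q.Prime)
    (h : ∀ R ⊆ T, B.lv ((w ∪ R).piecewise x' x) = F ∧ B.Has l a γ ((w ∪ R).piecewise x' x) ∧
      b ∈ B.V ((w ∪ R).piecewise x' x))
    (e : q ∈ B.S0 ∨ ∃ j, j ∉ T ∧ w.piecewise x' x j = q) {u : Gam → F3}
    (hu : ∀ g, fD (fun w => B.cg l a γ (w.piecewise x' x)) w T g = kT (u g)) :
    (alt T fun R => Dq (B.nn ((w ∪ R).piecewise x' x)) q (B.cg l a γ ((w ∪ R).piecewise x' x))
      (B.kA ((w ∪ R).piecewise x' x) b)) = lp q u (B.kA (w.piecewise x' x) b) := by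
  have h0 := h ∅ (empty_subset _)
  rw [union_empty] at h0
  have e1 : ∀ R ⊆ T, q ∈ B.S0 ∨ ∃ j, (w ∪ R).piecewise x' x j = q ∧ w.piecewise x' x j = q :=
    fun R hR => e.imp_right fun ⟨j, hj, k⟩ => ⟨j, by
      have : j ∉ R := fun k => hj (hR k)
      simpa [piecewise, this] using k, k⟩
  have d1 : ∀ R ⊆ T, q ∣ MM * B.nn ((w ∪ R).piecewise x' x) := fun R hR =>
    (hB.c_dvd (c_pw hx hx' _) hq).2 ((e1 R hR).imp_right fun ⟨j, hj, _⟩ => ⟨j, hj⟩)
  have d0 := d1 ∅ (empty_subset _)
  rw [union_empty] at d0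
  rw [← dq_sum T.powerset (fun R => (-1) ^ R.card) (hB.c_nn (c_pw hx hx' w)) hq
    (fun R hR => hB.lv_kk (c_pw hx hx' _) (c_pw hx hx' _)
      ((h R (mem_powerset.1 hR)).1.trans h0.1.symm) (e1 R (mem_powerset.1 hR)))
    (fun R hR => (h R (mem_powerset.1 hR)).2.1.spec.1.coc.lo_mono le_top)
    (fun R hR => (h R (mem_powerset.1 hR)).2.1.spec.1.loc q hq (d1 R (mem_powerset.1 hR)))
    (IsZ.loc h0.2.2.2 q hq d0) fun g _ => hu g, alt_ring]
  refine sum_congr rfl fun R hR => ?_
  rw [dq_congr (fun _ _ => rfl) (fun _ _ => rfl) (hB.lv_kA (c_pw hx hx' _) (c_pw hx hx' _)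
    ((h R (mem_powerset.1 hR)).1.trans h0.1.symm) (e1 R (mem_powerset.1 hR)) b)]
  push_cast
  rfl

theorem c_alt_sum {κ : Type} (s : Finset κ) (v : κ → Finset (Fin B.r) → F3) :
    alt S (fun w => ∑ j ∈ s, v j w) = ∑ j ∈ s, alt S (v j) := by
  simp only [alt, smul_sum]
  exact sum_comm

/-- The alternating sum of the pairing over a cube. -/
theorem Wf.dD (hB : B.Wf) (hx : x ∈ B.pts) (hx' : x' ∈ B.pts) (hl : l < S.card) (hS : 3 ≤ S.card)
    (h : ∀ w ⊆ S, B.lv (w.piecewise x' x) = F ∧ B.Has l a γ (w.piecewise x' x) ∧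
      b ∈ B.V (w.piecewise x' x)) (ψ : Fin B.r → Gam → F3) (hψ : ∀ j ∈ S, ∀ g,
      fD (fun w => B.cg l a γ (w.piecewise x' x)) {j} (S.erase j) g = kT (ψ j g)) :
    ∑ w ∈ S.powerset, (-1) ^ w.card * B.Dx (w.piecewise x' x) (B.cg l a γ (w.piecewise x' x)) b =
      ∑ j ∈ S, b.2 j * (ψ j (fq (x j)) - ψ j (fq (x' j))) := by
  set c : Finset (Fin B.r) → Gam → A := fun w => B.cg l a γ (w.piecewise x' x) with hc
  have h0 := h ∅ (empty_subset _)
  rw [piecewise_empty] at h0
  have z : ∀ g, fD c ∅ S g = 0 := fun g => by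
    simpa only [fD, empty_union] using
      (hB.closure hx hx' hl hS h0.1 fun w hw _ => ⟨(h w hw).1, (h w hw).2.1⟩).2 g
  have hA : Abv l S (fun w => B.nn (w.piecewise x' x)) c ∅ :=
    hB.abv hx hx' fun w hw _ => (h w hw).2.1
  have f0 : ∀ q : ℕ, q.Prime → (q ∈ B.S0 ∨ ∃ j, j ∉ S ∧ x j = q) → (alt S fun R =>
      Dq (B.nn (R.piecewise x' x)) q (c R) (B.kA (R.piecewise x' x) b)) = 0 := fun q hq e => by
    have k := hB.face_dq hx hx' hq (w := ∅) (T := S) (u := 0)
      (fun R hR => h _ (union_subset (empty_subset _) hR)) e fun g => by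
        rw [Pi.zero_apply, map_zero]
        exact z g
    exact (alt_congr fun R _ => by rw [empty_union]).trans
      (k.trans (lp_zero_left (fun _ _ => rfl) _))
  rw [← alt_ring]
  simp only [Dx, Dl]
  rw [alt_congr fun w _ => hB.c_sum (c_pw hx hx' w) _, alt_add, c_alt_sum, c_alt_sum, sum_eq_zero fun q hq => f0 q (c_S0 hq) (Or.inl hq), zero_add,
    ← sum_subset (subset_univ S) fun j _ hj => ?_]
  · refine sum_congr rfl fun j hj => ?_
    have hj' := singleton_subset_iff.2 hj
    have hd := disjoint_singleton_left.2 (notMem_erase j S)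
    have h2 : 2 ≤ (S.erase j).card := by
      rw [card_erase_of_mem hj]
      omega
    have p1 : ∀ w ⊆ ({j} : Finset _), Kc 0 (Gq (w.piecewise x' x j)) (ψ j) := fun w hw => by
      refine (coc_kC (n := B.nn (({j} : Finset _).piecewise x' x))).1 ⟨(((hA.mono
        (empty_subset {j})).sm hj' (erase_subset j S)).congr fun g _ => hψ j hj g).mono le_top,
        fun g hg g' _ => ?_⟩
      have k := fD_mul (hB.c_dirs hx hx' S) hj' (erase_subset j S) hd
        (hA.mono (empty_subset {j})).coc 0 g g'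
      rw [alt_eq_add, alt_zero fun R hR => ?_] at k
      · simpa [hψ j hj] using k
      split_ifs with e
      · rfl
      obtain ⟨i, hi⟩ := nonempty_iff_ne_empty.2 e
      obtain ⟨hij, hi'⟩ := mem_erase.1 (hR hi)
      have k := hB.lv_agree (c_pw hx hx' _) (c_pw hx hx' _)
        ((h _ (insert_subset hi' (hw.trans hj'))).1.trans (h w (hw.trans hj')).1.symm)
        (Or.inr ⟨j, piecewise_insert_of_ne _ _ _ hij.symm, rfl⟩) i hg
      rw [piecewise_insert_self, piecewise_eq_of_notMem _ _ _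
        fun k => hij (mem_singleton.1 (hw k))] at k
      rw [prod_eq_zero hi (by rw [Pi.sub_apply, k, sub_self, nu_zero]), zero_smul]
    have p3 : ∀ q : ℕ, q.Prime → ¬ q ∣ MM → ψ j (sq q) = 0 := fun q hq h3 => kT_inj (by
      rw [← hψ j hj, (hA.mono (empty_subset {j})).fD_sq hj' (erase_subset j S) h2 hq h3, map_zero])
    have p0 := p1 ∅ (empty_subset _)
    have p2 := p1 {j} Subset.rfl
    rw [piecewise_empty] at p0
    rw [piecewise_eq_of_mem _ _ _ (mem_singleton_self j)] at p2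
    have k0 := hB.face_dq hx hx' (hB.c_pr hx j) (w := ∅) (T := S.erase j) (u := ψ j)
      (fun R hR => h _ (union_subset (empty_subset _) (hR.trans (erase_subset j S))))
      (Or.inr ⟨j, notMem_erase j S, rfl⟩) fun g => by
        have k := z g
        rw [← insert_erase hj, fD_insert (notMem_erase j S), sub_eq_zero, insert_empty_eq] at k
        rw [← hψ j hj, ← k]
    have k1 := hB.face_dq hx hx' (hB.c_pr hx' j) (w := {j}) (T := S.erase j) (u := ψ j)
      (fun R hR => h _ (union_subset hj' (hR.trans (erase_subset j S))))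
      (Or.inr ⟨j, notMem_erase j S, piecewise_eq_of_mem _ _ _ (mem_singleton_self j)⟩)
      (hψ j hj)
    rw [lp_unr (hB.c_pr hx j) (hB.c_nM hx j) p0 (c_kc _ _ _)
      (p3 _ (hB.c_pr hx j) (hB.c_nM hx j)), piecewise_empty, hB.c_kA_sq hx h0.2.2.1] at k0
    have s1 := hB.c_kA_sq (c_pw hx hx' {j}) h0.2.2.1 j
    rw [piecewise_eq_of_mem _ _ _ (mem_singleton_self j)] at s1
    rw [lp_unr (hB.c_pr hx' j) (hB.c_nM hx' j) p2 (c_kc _ _ _)
      (p3 _ (hB.c_pr hx' j) (hB.c_nM hx' j)), s1] at k1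
    rw [mul_sub, mul_comm, ← k0, mul_comm, ← k1]
    conv_lhs => rw [← insert_erase hj, alt_insert (notMem_erase j S)]
    congr 1
    · refine alt_congr fun R hR => ?_
      rw [empty_union, piecewise_eq_of_notMem _ _ _ fun k => notMem_erase j S (hR k)]
    · refine alt_congr fun R _ => ?_
      rw [← insert_eq, piecewise_insert_self]
  · rw [← f0 _ (hB.c_pr hx j) (Or.inr ⟨j, hj, rfl⟩)]
    exact alt_congr fun R hR => by rw [piecewise_eq_of_notMem _ _ _ fun k => hj (hR k)]

/-- In large dimension the alternating sum of the pairing vanishes. -/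
theorem Wf.dD_zero (hB : B.Wf) (hx : x ∈ B.pts) (hx' : x' ∈ B.pts) (hl : l + 2 ≤ S.card)
    (hS : 3 ≤ S.card) (h : ∀ w ⊆ S, B.lv (w.piecewise x' x) = F ∧
      B.Has l a γ (w.piecewise x' x) ∧ b ∈ B.V (w.piecewise x' x)) :
    ∑ w ∈ S.powerset, (-1) ^ w.card * B.Dx (w.piecewise x' x) (B.cg l a γ (w.piecewise x' x)) b =
      0 := by
  rw [hB.dD hx hx' (by omega) hS h 0 fun j hj g => ?_]
  · simp
  have k := (hB.abv (b := {j}) hx hx' fun w hw _ => (h w hw).2.1).blem (hB.c_dirs hx hx' S)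
    (singleton_subset_iff.2 hj) (erase_subset j S) (disjoint_singleton_left.2 (notMem_erase j S))
    (e := 0) (by rw [card_erase_of_mem hj]; omega) g
  simpa using k

/-- The governing family of the face at the second pivot. -/
theorem Wf.face_gov (hB : B.Wf) (hx : x ∈ B.pts) (hx' : x' ∈ B.pts) (ha : ia ∉ U) (hc : ic ∉ U)
    (hac : ia ≠ ic) (hU : Odd U.card) (aU : ∀ i ∈ U, a.2 i = 0)
    (h : ∀ w ⊆ insert ia (insert ic U), ic ∈ w → B.Has (U.card + 1) a γ (w.piecewise x' x)) :
    ∃ Φ, Gov U (fun i => kk (x i) - kk (x' i)) (a.2 ia • (kap 1 (x ia) - kap 1 (x' ia))) Φ ∧ ∀ g,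
      fD (fun w => B.cg (U.card + 1) a γ (w.piecewise x' x)) {ic} (insert ia U) g = kT (Φ U g) := by
  refine (hB.abv (b := {ic}) hx hx' fun w hw k => h w hw (singleton_subset_iff.1 k)).gov
    (hB.c_dirs hx hx' _) (by simp) ha (insert_subset_insert _ (subset_insert _ _))
    (by simp [hc, hac.symm]) hU (κ := B.kA (({ic} : Finset _).piecewise x' x) a)
    fun w h1 h2 g => ?_
  have hw : w ⊆ insert ia (insert ic U) := by
    rwa [insert_comm, insert_eq]
  have hi := singleton_subset_iff.1 h1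
  refine (congrFun (h w hw hi).spec.2.1 g).trans (congrArg kT ?_)
  rw [c_kA_pw, c_kA_pw, sum_singleton, ← add_sum_erase w _ hi, sub_eq_add_neg _ (ite ..),
    add_assoc]
  congr 2
  have z : ∀ i ∈ w.erase ic, i ≠ ia → a.2 i * (kap 1 (x' i) g - kap 1 (x i) g) = 0 := fun i k e => by
    rw [aU i (by simpa [e, ne_of_mem_erase k] using hw (mem_of_mem_erase k)), zero_mul]
  split_ifs with k
  · rw [sum_eq_single_of_mem ia (mem_erase.2 ⟨hac, k⟩) z, Pi.smul_apply, Pi.sub_apply, smul_eq_mul]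
    ring
  · rw [neg_zero]
    exact sum_eq_zero fun i hi => z i hi (ne_of_mem_of_not_mem (mem_of_mem_erase hi) k)

/-- The alternating sum of the pairing is a difference of values of the governing function. -/
theorem Wf.dD_gov (hB : B.Wf) (hx : x ∈ B.pts) (hx' : x' ∈ B.pts) (ha : ia ∉ U) (hc : ic ∉ U)
    (hac : ia ≠ ic) (hU : Odd U.card) (aU : ∀ i ∈ U, a.2 i = 0) (bU : ∀ i ∈ U, b.2 i = 0)
    (ba : b.2 ia = 0) (h : ∀ w ⊆ insert ia (insert ic U), B.lv (w.piecewise x' x) = F ∧
      B.Has (U.card + 1) a γ (w.piecewise x' x) ∧ b ∈ B.V (w.piecewise x' x)) :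
    ∑ w ∈ (insert ia (insert ic U)).powerset, (-1) ^ w.card *
      B.Dx (w.piecewise x' x) (B.cg (U.card + 1) a γ (w.piecewise x' x)) b =
      b.2 ic * B.gv a U ia x x' (fq (x ic)) - b.2 ic * B.gv a U ia x x' (fq (x' ic)) := by
  have hS : (insert ia (insert ic U)).card = U.card + 2 := by
    rw [card_insert_of_notMem (by simp [ha, hac]), card_insert_of_notMem hc]
  have h1 := hU.pos
  obtain ⟨Φ, g1, g2⟩ := hB.face_gov hx hx' ha hc hac hU aU fun w hw _ => (h w hw).2.1
  have e : (insert ia (insert ic U)).erase ic = insert ia U := by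
    rw [insert_comm, erase_insert (by simp [hc, hac.symm])]
  have ex : ∀ j ∈ insert ia (insert ic U), ∀ g, ∃ t, fD (fun w => B.cg (U.card + 1) a γ
      (w.piecewise x' x)) {j} ((insert ia (insert ic U)).erase j) g = kT t := fun j hj g => by
    have k := (hB.abv (b := {j}) hx hx' fun w hw _ => (h w hw).2.1).blem (hB.c_dirs hx hx' _)
      (singleton_subset_iff.2 hj) (erase_subset j _)
      (disjoint_singleton_left.2 (notMem_erase j _)) (e := 1)
      (by rw [card_erase_of_mem hj]; omega) g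
    exact exists_kT (by rwa [pow_one] at k)
  choose! ψ hψ using ex
  have e2 : ψ ic = Φ U := funext fun g => kT_inj (by rw [← hψ ic (by simp), e, g2])
  rw [hB.dD hx hx' (by omega) (by omega) h ψ hψ, sum_eq_single_of_mem ic (by simp)
    fun j hj k => ?_, e2, gv, g1.gov_eq, mul_sub]
  rcases mem_insert.1 hj with rfl | hj
  · rw [ba, zero_mul]
  · rw [bU j ((mem_insert.1 hj).resolve_left k), zero_mul]

end Bx

end Pool.Agent.Lib.MP_696deb_nt.CU.CV.Cy
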