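import Pool.Agent.Lib.MP_696deb_nt.CY.Fib
import Pool.Agent.Lib.MP_696deb_nt.CV.Four
import Pool.Agent.Lib.MP_696deb_nt.CU.SD

/-! First moments at level one. -/

set_option autoImplicit false
set_option linter.unusedSectionVars false

open scoped Classical
open Finset

namespace Pool.Agent.Lib.MP_696deb_nt.CU.CV.Cy

theorem bil_of {P R : Finset ℕ} (hP : P.Nonempty) (hR : R.Nonempty) {G : ℕ → ℕ → F3} {Y : ℝ}
    (h : ∀ α β : ℕ → ℂ, (∀ p, ‖α p‖ ≤ 1) → (∀ r, ‖β r‖ ≤ 1) →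
      ‖∑ p ∈ P, ∑ r ∈ R, α p * β r * ee (G p r)‖ ≤ P.card * R.card / Y) :
    Bil ee P R G (1 / Y) := fun α β hα hβ => by
  have h1 : (0 : ℝ) < P.card := Nat.cast_pos.2 hP.card_pos
  have h2 : (0 : ℝ) < R.card := Nat.cast_pos.2 hR.card_pos
  simp only [expect_eq_sum_div_card, ← sum_div, norm_div, Complex.norm_natCast]
  rw [div_div, div_le_iff₀ (mul_pos h2 h1)]
  exact (h α β hα hβ).trans_eq (by ring)

namespace Bx

variable [δ : Qd]

theorem mem_PX {B : Bx} (h : B.Wf) {e p : ℕ} {j : Fin B.r} (hp : p ∈ B.X j) :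
    j ∈ B.P e ↔ mu (e + 1) (fq p) = 1 := by
  obtain ⟨x, hx⟩ : B.pts.Nonempty := Fintype.piFinset_nonempty.2 h.ne
  rw [mem_P h (update_mem hx hp), Function.update_self]

theorem gen_out {B : Bx} {c : ℕ} (h : B.Hyp (c + 1)) : ∃ i, ∀ e, i ∉ B.P e := by
  obtain ⟨i, hi⟩ := card_pos.1 (((Nat.mul_pos c.succ_pos B.k0.succ_pos).trans_le h.hH).trans_le
    (h.win 0))
  refine ⟨i, fun e => ?_⟩
  unfold P
  split_ifs
  exacts [(h.lo i hi).1, (h.lo i hi).2]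

theorem gen_V (lin : LinStmt) (lk : LinK) (e E : ℕ) : ∃ c : ℕ, ∀ B : Bx, B.Hyp c →
    ∀ a : B.Pe e, a ∈ B.Sup e → a.2 ≠ 0 → ((B.pts.filter fun x => a ∈ B.Ve e x).card : ℝ) ≤
      (1 / 3 ^ (B.P (e + 1)).card + 1 / B.Z ^ E) * B.pts.card := by
  obtain ⟨c1, h1⟩ := lin E
  obtain ⟨c2, h2⟩ := lk e E
  refine ⟨c1 + c2 + 1, fun B h a hs ha => ?_⟩
  obtain ⟨o, ho⟩ := gen_out h
  have W := h.wf
  have dj : ∀ {i j}, i ≠ j → Disjoint (B.X i) (B.X j) := fun n =>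
    disjoint_left.2 fun p hp hp' => n (W.disj _ _ p hp hp')
  have sp : ∀ {j}, a.2 j ≠ 0 → j ∈ B.P e := fun n => by_contra fun k => n (hs _ k)
  have g1 := h.mono (c := c1) (by omega)
  have g2 := h.mono (c := c2) (by omega)
  refine le_trans (Nat.cast_le.2 (card_le_card fun x hx => ?_)) (gen_four ee_prim W.ne
    (s := fun p q => kk p (fq q)) (u := fun p q => kap e p (fq q))
    (one_div_nonneg.2 (pow_nonneg (zero_le_two.trans h.two_le) _)) ha (hs o (ho e)) (ho (e + 1))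
    (fun j hj n t ht => bil_of (W.ne o) (W.ne j) fun α β => h1 B.Z _ _ _ _ t α β h.two_le
      (g1.rng' o) (g1.rng' j) (dj fun k => ho _ (k ▸ hj)) (fun p hp => mod_one (W.prime j p hp)
        (fun d => W.cop j p hp (d.mul_right _)) ((mem_PX W hp).1 (sp n)) ((mem_PX W hp).1 hj)) ht)
    (fun i n j hj k t ht => bil_of (W.ne i) (W.ne j) fun α β => h2 B.Z _ _ _ _ t α β h.two_le
      (g2.rng' i) (g2.rng' j) (dj k) (fun p hp => (mem_PX W hp).1 (sp n))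
      (fun p hp => mu_add_two e ▸ (mem_PX W hp).1 hj) ht)
    fun j p => a.1.1 (fq p) - a.2 j * kk B.N0 (fq p))
  obtain ⟨hx, hv⟩ := mem_filter.1 hx
  refine (@mem_filter _ _ (_) _ _).2 ⟨hx, fun j hj => ?_⟩
  have k := ((mem_Ve_iff W hx).1 hv).2.2 j hj
  rw [kE_apply, kk_nn W hx] at k
  linear_combination k

theorem gen_num {B : Bx} {m E : ℕ} (h : B.Hyp (m + 1))
    (hE : ((3 : ℕ) : ℝ) ^ ((B.r + B.k0 + 1) ^ 2) ≤ B.Z ^ E) :
    (3 : ℝ) ^ B.k0 * 3 ^ B.P0.card * (1 / 3 ^ B.P1.card + 1 / B.Z ^ (E + m)) ≤ 2 / 2 ^ m := by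
  have hZ : (0 : ℝ) < B.Z := two_pos.trans_le h.two_le
  have e : B.P0.card ≤ B.r := (card_le_univ _).trans_eq (Fintype.card_fin _)
  have e1 : B.k0 + B.P0.card + m ≤ B.P1.card := by
    have := h.hH
    have := h.gap
    nlinarith
  have k1 : (3 : ℝ) ^ B.k0 * 3 ^ B.P0.card * 2 ^ m ≤ 3 ^ B.P1.card := by
    refine le_trans ?_ (pow_le_pow_right₀ (by norm_num) e1)
    rw [pow_add, pow_add]
    gcongr
    norm_num
  have k2 : (3 : ℝ) ^ B.k0 * 3 ^ B.P0.card * 2 ^ m ≤ B.Z ^ (E + m) := by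
    rw [pow_add, ← pow_add 3]
    refine mul_le_mul (le_trans ?_ hE) (pow_le_pow_left₀ zero_le_two h.two_le _) (by positivity)
      (pow_pos hZ _).le
    exact pow_le_pow_right₀ (by norm_num) (by nlinarith)
  have k3 : (3 : ℝ) ^ B.k0 * 3 ^ B.P0.card * 2 ^ m / 3 ^ B.P1.card ≤ 1 :=
    (div_le_one (by positivity)).2 k1
  have k4 : (3 : ℝ) ^ B.k0 * 3 ^ B.P0.card * 2 ^ m / B.Z ^ (E + m) ≤ 1 :=
    (div_le_one (pow_pos hZ _)).2 k2
  rw [le_div_iff₀ (by positivity)]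
  calc _ = (3 : ℝ) ^ B.k0 * 3 ^ B.P0.card * 2 ^ m / 3 ^ B.P1.card +
        (3 : ℝ) ^ B.k0 * 3 ^ B.P0.card * 2 ^ m / B.Z ^ (E + m) := by ring
    _ ≤ 2 := by linarith

theorem card_SupF (B : Bx) (e : ℕ) :
    (univ.filter (· ∈ B.Sup e)).card = Fintype.card (B.W e) * 3 ^ (B.P e).card := by
  rw [← card_Sup, Nat.card_eq_fintype_card, Fintype.card_subtype]

theorem Ge.ne {B : Bx} {e : ℕ} {x : B.Pt} (g : B.Ge e x) {a : B.Pe e} (ha : a ∈ B.Ve e x)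
    (k : a ∉ B.Le e) : a.2 ≠ 0 := fun n => k (g a ha fun j _ => congrFun n j)

theorem gen_G1 (lin : LinStmt) (lk : LinK) {ε : ℝ} (hε : 0 < ε) : ∃ c : ℕ, ∀ B : Bx, B.Hyp c →
    ((B.pts.filter fun x => B.B1p x ∧ ¬ B.G1 x).card : ℝ) ≤ ε * B.pts.card := by
  obtain ⟨E, hE⟩ := pow_le_Z 3
  obtain ⟨m, hm⟩ := pow_unbounded_of_one_lt (K3 * 2 / ε) (one_lt_two (α := ℝ))
  obtain ⟨c, hc⟩ := gen_V lin lk 0 (E + m)
  refine ⟨c + m + 1, fun B h => ?_⟩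
  have hZ : (0 : ℝ) < B.Z := two_pos.trans_le h.two_le
  let T : Finset (B.Pe 0) := (univ.filter (· ∈ B.Sup 0)).filter fun a => a.2 ≠ 0
  have h1 : (B.pts.filter fun x => B.B1p x ∧ ¬ B.G1 x) ⊆
      T.biUnion fun a => B.pts.filter fun x => a ∈ B.Ve 0 x := fun x hx => by
    obtain ⟨hx, h2, h3⟩ := mem_filter.1 hx
    obtain ⟨a, a1, a2⟩ := SetLike.not_le_iff_exists.1 h3
    exact mem_biUnion.2 ⟨a, mem_filter.2 ⟨mem_filter.2 ⟨mem_univ _, a1.1⟩,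
      (B1p.ge h.wf hx h2 0).ne a1 a2⟩, mem_filter.2 ⟨hx, a1⟩⟩
  have h2 : (T.card : ℝ) ≤ K3 * (3 ^ B.k0 * 3 ^ B.P0.card) := by
    have k := ((card_filter_le _ _ : T.card ≤ _).trans_eq (card_SupF B 0)).trans
      (Nat.mul_le_mul_right _ (card_W h.wf 0))
    rw [mul_assoc, P_zero] at k
    exact_mod_cast k
  have h3 := (Nat.cast_le (α := ℝ)).2 ((card_le_card h1).trans card_biUnion_le)
  rw [Nat.cast_sum] at h3
  refine (h3.trans (sum_le_card_nsmul _ _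
    ((1 / 3 ^ B.P1.card + 1 / B.Z ^ (E + m)) * B.pts.card) fun a ha => ?_)).trans ?_
  · exact hc B (h.mono (by omega)) a (mem_filter.1 (mem_filter.1 ha).1).2 (mem_filter.1 ha).2
  · rw [nsmul_eq_mul, ← mul_assoc]
    refine mul_le_mul_of_nonneg_right ((mul_le_mul_of_nonneg_right h2 (by positivity)).trans ?_)
      (Nat.cast_nonneg _)
    rw [mul_assoc]
    refine (mul_le_mul_of_nonneg_left (gen_num (h.mono (by omega)) (hE B h.pos h.le1))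
      (Nat.cast_nonneg _)).trans ?_
    rw [← mul_div_assoc, div_le_iff₀ (by positivity), mul_comm ε]
    exact ((div_lt_iff₀ hε).1 hm).le

end Bx

end Pool.Agent.Lib.MP_696deb_nt.CU.CV.Cy
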