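import Pool.Agent.Lib.MP_696deb_nt.CY.Gen
import Pool.Agent.Lib.MP_696deb_nt.CU.Bal

/-! Unbalanced Selmer patterns are rare. -/

set_option autoImplicit false
set_option linter.unusedSectionVars false

open scoped Classical
open Finset

namespace Pool.Agent.Lib.MP_696deb_nt.CU.CV.Cy

namespace Bx

variable [δ : Qd]

theorem card_unbal {B : Bx} {c : ℕ} (h : B.Hyp c) :
    ((univ.filter fun a : B.Pat => a ∈ B.Sup 1 ∧ ¬ B.Bal a.2).card : ℝ) ≤
      Fintype.card (B.W 1) * (3 * 3 ^ B.P1.card * (399 / 400) ^ B.H) := by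
  have e : ∀ p : Fin B.r → Prop, (((B.I 1).subtype (· ∈ B.P1)).filter fun j => p j.1).card =
      ((B.I 1).filter p).card := fun p => by
    rw [show (((B.I 1).subtype (· ∈ B.P1)).filter fun j => p j.1) =
      ((B.I 1).filter p).subtype (· ∈ B.P1) by ext; simp, card_subtype,
      filter_true_of_mem fun j hj => (h.hi j (mem_filter.1 hj).1).2]
  have e1 : ((B.I 1).subtype (· ∈ B.P1)).card = (B.I 1).card := by simpa using e fun _ => True
  have h1 := bal_count ((B.I 1).subtype (· ∈ B.P1))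
  rw [Fintype.card_coe, e1] at h1
  have h2 := card_le_card_of_injOn (s := univ.filter fun a : B.Pat => a ∈ B.Sup 1 ∧ ¬ B.Bal a.2)
    (t := univ ×ˢ univ.filter fun v : B.P1 → ZMod 3 => ¬ CU.Bal ((B.I 1).subtype (· ∈ B.P1)) v)
    (fun a => (a.1, fun j => a.2 j)) (fun a ha => mem_coe.2 (mem_product.2 ⟨mem_univ _,
      mem_filter.2 ⟨mem_univ _, fun k => (mem_filter.1 ha).2.2 fun s => by
        have := k s
        rw [e1] at this
        exact this.trans_eq (congrArg _ (by convert e fun j => a.2 j = s))⟩⟩))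
    fun a ha b hb k => Prod.ext (Prod.mk.inj k).1 (funext fun j => by
      by_cases hj : j ∈ B.P1
      exacts [congrFun (Prod.mk.inj k).2 ⟨j, hj⟩,
        ((mem_filter.1 ha).2.1 j hj).trans ((mem_filter.1 hb).2.1 j hj).symm])
  rw [card_product, card_univ] at h2
  have h4 := (Nat.cast_le (α := ℝ)).2 h2
  rw [Nat.cast_mul] at h4
  refine h4.trans (mul_le_mul_of_nonneg_left (le_trans (le_of_eq (by congr)) (h1.trans ?_))
    (Nat.cast_nonneg _))
  exact mul_le_mul_of_nonneg_left (pow_le_pow_of_le_one (by norm_num) (by norm_num) (h.win 1))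
    (by positivity)

theorem genB_swap {B : Bx} {c : ℕ} (h : B.Hyp c) {M : ℝ} (hM : 0 ≤ M)
    (k : ∀ a : B.Pat, a ∈ B.Sup 1 → a.2 ≠ 0 → ((B.pts.filter fun x => a ∈ B.V x).card : ℝ) ≤ M) :
    ∑ x ∈ B.pts with B.G0 x, (((B.VF x).filter fun a => a ∉ B.L1 ∧ ¬ B.Bal a.2).card : ℝ) ≤
      Fintype.card (B.W 1) * (3 * 3 ^ B.P1.card * (399 / 400) ^ B.H) * M := by
  set U := univ.filter fun a : B.Pat => (a ∈ B.Sup 1 ∧ ¬ B.Bal a.2) ∧ a.2 ≠ 0
  calc _ ≤ ∑ x ∈ B.pts with B.G0 x, ((U.filter fun a => a ∈ B.V x).card : ℝ) :=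
        sum_le_sum fun x hx => Nat.cast_le.2 (card_le_card fun a ha => by
          obtain ⟨h1, h2, h3⟩ := mem_filter.1 ha
          exact mem_filter.2 ⟨mem_filter.2 ⟨mem_univ _, ⟨(mem_VF.1 h1).1, h3⟩,
            Ge.ne (mem_filter.1 hx).2 (mem_VF.1 h1) h2⟩, mem_VF.1 h1⟩)
    _ ≤ ∑ x ∈ B.pts, ((U.filter fun a => a ∈ B.V x).card : ℝ) :=
        sum_le_sum_of_subset_of_nonneg (filter_subset _ _) fun _ _ _ => Nat.cast_nonneg _
    _ = ∑ a ∈ U, ((B.pts.filter fun x => a ∈ B.V x).card : ℝ) := by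
        simp only [card_filter]
        push_cast
        exact sum_comm
    _ ≤ ∑ a ∈ U, M := sum_le_sum fun a ha => k a (mem_filter.1 ha).2.1.1 (mem_filter.1 ha).2.2
    _ ≤ _ := by
        rw [sum_const, nsmul_eq_mul]
        refine mul_le_mul_of_nonneg_right (le_trans (Nat.cast_le.2 (card_le_card fun a ha => ?_))
          (card_unbal h)) hM
        exact mem_filter.2 ⟨mem_univ _, (mem_filter.1 ha).2.1⟩

theorem unbal_sum (lin : LinStmt) (lk : LinK) {ε : ℝ} (hε : 0 < ε) : ∃ c : ℕ, ∀ B : Bx, B.Hyp c →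
    ∑ x ∈ B.pts with B.G0 x,
      9 * (((B.VF x).filter fun a => a ∉ B.L1 ∧ ¬ B.Bal a.2).card : ℝ) / (B.VF x).card ≤
        ε * B.pts.card := by
  obtain ⟨E, hE⟩ := pow_le_Z 3
  obtain ⟨c1, h1⟩ := gen_V lin lk 1 E
  have hK : (0 : ℝ) < K3 := Nat.cast_pos.2 K3_pos
  obtain ⟨c2, h2⟩ := exists_pow_lt_of_lt_one
    (lt_min (by norm_num : (0 : ℝ) < 1 / 9) (div_pos hε (mul_pos (by norm_num : (0 : ℝ) < 54) hK)))
    (by norm_num : (399 / 400 : ℝ) < 1)
  obtain ⟨h3, h4⟩ := lt_min_iff.1 h2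
  refine ⟨c1 + c2, fun B h => ?_⟩
  have z : (3 : ℝ) ^ B.P0.card ≤ B.Z ^ E := by
    refine le_trans (pow_le_pow_right₀ (by norm_num) ?_) (by simpa using hE B h.pos h.le1)
    have := card_le_univ B.P0
    rw [Fintype.card_fin] at this
    exact this.trans ((by omega : B.r ≤ B.r + B.k0 + 1).trans (Nat.le_self_pow two_ne_zero _))
  have s := genB_swap h (M := 2 / 3 ^ B.P0.card * B.pts.card) (by positivity) fun a ha ha' =>
    (h1 B (h.mono (by omega)) a ha ha').trans (mul_le_mul_of_nonneg_right (by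
      have := one_div_le_one_div_of_le (by positivity) z
      calc _ ≤ 1 / (3 : ℝ) ^ B.P0.card + 1 / 3 ^ B.P0.card := add_le_add le_rfl this
        _ = _ := by ring) (Nat.cast_nonneg _))
  have q : 9 ^ B.k0 * (399 / 400 : ℝ) ^ B.H ≤ (399 / 400) ^ c2 := by
    calc _ ≤ 9 ^ B.k0 * (399 / 400 : ℝ) ^ (c2 * (B.k0 + 1)) :=
          mul_le_mul_of_nonneg_left (pow_le_pow_of_le_one (by norm_num) (by norm_num)
            ((Nat.mul_le_mul_right _ (by omega)).trans h.hH)) (by positivity)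
      _ = (9 * (399 / 400) ^ c2) ^ B.k0 * (399 / 400) ^ c2 := by
          rw [pow_mul, pow_succ, mul_pow, mul_assoc]
      _ ≤ _ := mul_le_of_le_one_left (by positivity) (pow_le_one₀ (by positivity) (by linarith))
  have w : (0 : ℝ) < Fintype.card (B.W 1) := Nat.cast_pos.2 Fintype.card_pos
  calc _ ≤ ∑ x ∈ B.pts with B.G0 x,
        9 * (K3 * 9 ^ B.k0 * 3 ^ B.P0.card / (Fintype.card (B.W 1) * 3 ^ B.P1.card)) *
          (((B.VF x).filter fun a => a ∉ B.L1 ∧ ¬ B.Bal a.2).card : ℝ) := by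
        refine sum_le_sum fun x hx => ?_
        have v := (Nat.cast_le (α := ℝ)).2 (card_V h.wf (mem_filter.1 hx).1)
        push_cast at v
        have v0 : (0 : ℝ) < (B.VF x).card := Nat.cast_pos.2 (card_pos.2 ⟨0, mem_VF.2 (zero_mem _)⟩)
        rw [div_eq_mul_one_div, mul_right_comm]
        refine mul_le_mul_of_nonneg_right (mul_le_mul_of_nonneg_left ?_ (by norm_num))
          (Nat.cast_nonneg _)
        rw [div_le_div_iff₀ v0 (by positivity), one_mul]
        exact v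
    _ ≤ 9 * (K3 * 9 ^ B.k0 * 3 ^ B.P0.card / (Fintype.card (B.W 1) * 3 ^ B.P1.card)) *
        (Fintype.card (B.W 1) * (3 * 3 ^ B.P1.card * (399 / 400) ^ B.H) *
          (2 / 3 ^ B.P0.card * B.pts.card)) := by
        rw [← mul_sum]
        exact mul_le_mul_of_nonneg_left s (by positivity)
    _ = 54 * K3 * (9 ^ B.k0 * (399 / 400) ^ B.H) * B.pts.card := by
        field_simp
        ring
    _ ≤ _ := by
        refine mul_le_mul_of_nonneg_right ?_ (Nat.cast_nonneg _)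
        rw [lt_div_iff₀' (by positivity)] at h4
        exact (mul_le_mul_of_nonneg_left q (by positivity)).trans h4.le

end Bx

end Pool.Agent.Lib.MP_696deb_nt.CU.CV.Cy
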