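import Pool.Agent.Lib.MP_696deb_nt.CY.Cb2
import Pool.Agent.Lib.MP_696deb_nt.CY.FibB
import Pool.Agent.Lib.MP_696deb_nt.CU.Step

/-! Cancellation in the sum of the pairing over a closed set of points. -/

set_option autoImplicit false
set_option linter.unusedSectionVars false

open scoped Classical BigOperators
open Finset Function

namespace Pool.Agent.Lib.MP_696deb_nt.CU.CV.Cy

variable [δ : Qd]

namespace Bx

variable {B : Bx} {x x' x'' : B.Pt} {l : ℕ} {a b : B.Pat} {γ : B.Col} {F : B.Lv}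
  {U : Finset (Fin B.r)} {ia ic : Fin B.r}

theorem Dir.ha' {n c : ℕ} (h : B.Dir n a b U ia ic) (hB : B.Hyp c) : ia ∉ U := fun k =>
  disjoint_left.1 hB.dj (h.low k) h.ha

theorem Dir.hc' {n c : ℕ} (h : B.Dir n a b U ia ic) (hB : B.Hyp c) : ic ∉ U := fun k =>
  disjoint_left.1 hB.dj (h.low k) h.hc

theorem Wf.step_frob (hB : B.Wf) (hx : x ∈ B.pts) (hx' : x' ∈ B.pts) (hx'' : x'' ∈ B.pts)
    {j k : Fin B.r} (hj : j ∉ U) (hk : k ∉ U) (hjk : k ≠ j)
    (h : B.lv (({k} : Finset _).piecewise x' (U.piecewise x'' x)) =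
      B.lv (({k} : Finset _).piecewise x' x)) {i : Fin B.r} (hi : i ∈ U) :
    kk (x'' i) (fq (x j)) = kk (x i) (fq (x j)) := by
  have e := hB.lv_agree (c_pw (c_pw hx hx'' U) hx' _) (c_pw hx hx' _) h (Or.inr ⟨j, by
    rw [c_pw_single hjk, piecewise_eq_of_notMem _ _ _ hj], c_pw_single hjk⟩) i
    (fq_mem (hB.c_pr hx j))
  have hi' := (ne_of_mem_of_not_mem hi hk).symm
  rwa [c_pw_single hi', c_pw_single hi', piecewise_eq_of_mem _ _ _ hi] at e

theorem Wf.step_gov (hB : B.Wf) (hx : x ∈ B.pts) (hx' : x' ∈ B.pts) (hx'' : x'' ∈ B.pts)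
    (ha : ia ∉ U) (hc : ic ∉ U) (hac : ia ≠ ic) (hU : Odd U.card) (aU : ∀ i ∈ U, a.2 i = 0)
    (h : ∀ v ⊆ U, ∀ w ⊆ insert ia (insert ic U), ic ∈ w →
      B.Has (U.card + 1) a γ (w.piecewise x' (v.piecewise x'' x))) :
    (∃ Φ, Gov U (fun i => kk (x i) - kk (x'' i)) (a.2 ia • (kap 1 (x ia) - kap 1 (x' ia))) Φ) ∧
      ∀ r g, ∑ v ∈ U.powerset, (-1) ^ v.card * B.gv a U ia (v.piecewise x'' (update x ic r)) x' g =
        gov U (fun i => kk (x i) - kk (x'' i)) (a.2 ia • (kap 1 (x ia) - kap 1 (x' ia))) g := by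
  have e : ∀ (v : Finset (Fin B.r)) (y : B.Pt) (i : Fin B.r), y i = x i →
      kk (v.piecewise x'' y i) - kk (x' i) = v.piecewise (fun i => kk (x'' i) - kk (x' i))
        (fun i => kk (x i) - kk (x' i)) i := fun v y i hi => by
    simp only [piecewise]
    split_ifs
    · rfl
    · rw [hi]
  have e2 : ((fun i => kk (x i) - kk (x' i)) - fun i => kk (x'' i) - kk (x' i)) =
      fun i => kk (x i) - kk (x'' i) := funext fun i => by
    rw [Pi.sub_apply, sub_sub_sub_cancel_right]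
  have k := gov_alt (U := U) (k := a.2 ia • (kap 1 (x ia) - kap 1 (x' ia)))
    (fun i => kk (x i) - kk (x' i)) (fun i => kk (x'' i) - kk (x' i)) fun v hv => by
      obtain ⟨Φ, k, -⟩ := hB.face_gov (c_pw hx hx'' v) hx' ha hc hac hU aU (h v hv)
      rw [piecewise_eq_of_notMem _ _ _ fun k => ha (hv k)] at k
      exact ⟨Φ, k.congr fun i _ => e v x i rfl⟩
  rw [e2] at k
  refine ⟨k.1, fun r g => (sum_congr rfl fun v hv => ?_).trans (k.2 g)⟩
  rw [gv, piecewise_eq_of_notMem _ _ _ fun k => ha (mem_powerset.1 hv k), update_of_ne hac,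
    gov_congr fun i hi => e v _ i (update_of_ne (ne_of_mem_of_not_mem hi hc) _ _)]

/-- The bound for one colour. -/
theorem step_col (ana : AnaStmt) (n E : ℕ) (hn : Odd n) : ∃ c, ∀ B : Bx, B.Hyp c →
    ∀ a b U ia ic (F : B.Lv) (Q : B.Pt → Prop) (γ : B.Col), B.Dir n a b U ia ic →
    B.Closed (insert ia (insert ic U)) Q → (∀ x ∈ B.pts, Q x → B.lv x = F ∧ b ∈ B.V x) →
    ‖𝔼 x ∈ B.pts, ind (Q x ∧ B.Has (n + 1) a γ x) * ee (B.Dx x (B.cg (n + 1) a γ x) b)‖ ≤
      1 / B.Z ^ E := by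
  set N1 := E * 2 ^ (n + 2)
  set N2 := (N1 + 1) * 2 ^ n with hN2
  obtain ⟨c0, hc0⟩ := ana n (N2 + 1) hn
  refine ⟨c0 + (N2 + 1 + (n + 2) + 1), fun B hB a b U ia ic F Q γ hD hQ hF => ?_⟩
  have hZ := hB.two_le
  have h0 : 0 < B.Z := zero_lt_two.trans_le hZ
  have W := hB.wf
  have ha := hD.ha' hB
  have hc := hD.hc' hB
  have hac := hD.ne
  obtain rfl := hD.card
  have hS : (insert ia (insert ic U)).card = U.card + 2 := by
    rw [card_insert_of_notMem (by simp [ha, hac]), card_insert_of_notMem hc]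
  have h1 := hn.pos
  have main := step_abs B.X W.ne U ia ic ha hc hac ee (fun x => Q x ∧ B.Has (U.card + 1) a γ x)
    (fun x => B.Dx x (B.cg (U.card + 1) a γ x) b)
    (fun x x' => b.2 ic * B.gv a U ia x x' (fq (x ic)))
    (fun x x' => -(b.2 ic * B.gv a U ia x x' (fq (x' ic)))) (η := 1 / B.Z ^ (N2 + 1 + (U.card + 2)))
    (δ := 1 / B.Z ^ (N2 + 1)) (κ := 1 / B.Z ^ (N1 + 1)) (fun i _ => ?_)
    (fun x hx x' hx' ne h => ?_) (fun x x' r => ?_)
    (fun x hx x' hx' x'' hx'' ne α β hα hβ sα sβ => ?_) (by positivity) (by positivity) ?_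
  · refine (pow_le_pow_iff_left₀ (norm_nonneg _) (by positivity)
      (pow_ne_zero (U.card + 2) two_ne_zero)).1 (main.trans ?_)
    rw [one_div_pow, ← pow_mul]
    exact_mod_cast step_num hZ (U.card + 2) le_rfl
      ((Nat.le_succ N1).trans (Nat.le_mul_of_pos_right _ (by positivity)))
  · rw [one_div, inv_mul_eq_div, one_le_div (by positivity)]
    exact (hB.mono (Nat.le_add_left _ _)).card_ge i
  · have q0 := hQ x x' ⟨W, hx, hx', ne⟩ fun w hw k => (h w hw k).1
    have k0 := (W.closure hx hx' (by omega) (by omega) (hF x hx q0).1 fun w hw k =>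
      ⟨(hF _ (c_pw hx hx' w) (h w hw k).1).1, (h w hw k).2⟩).1
    have h' : ∀ w ⊆ insert ia (insert ic U), Q (w.piecewise x' x) ∧
        B.Has (U.card + 1) a γ (w.piecewise x' x) := fun w hw => by
      rcases w.eq_empty_or_nonempty with rfl | k
      · rw [piecewise_empty]
        exact ⟨q0, k0⟩
      · exact h w hw k
    refine ⟨⟨q0, k0⟩, ?_⟩
    rw [W.dD_gov hx hx' ha hc hac hn hD.aU hD.bU hD.ba fun w hw =>
      ⟨(hF _ (c_pw hx hx' w) (h' w hw).1).1, (h' w hw).2, (hF _ (c_pw hx hx' w) (h' w hw).1).2⟩,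
      sub_eq_add_neg]
  · rw [gv, gv, update_of_ne hac,
      gov_congr fun i hi => by rw [update_of_ne (ne_of_mem_of_not_mem hi hc)]]
  · obtain ⟨i0, hi0, ht⟩ := exists_max_image U B.t (card_pos.1 h1)
    have hB0 := hB.mono (Nat.le_add_right _ _)
    have rg : ∀ j ∈ B.Up, Rng B.Z c0 (B.t i0) (B.t j) (B.X j) := fun j hj =>
      { hB0.rng' j with gap := hB0.ord i0 (hD.low hi0) j hj }
    have G := fun p (hp : p ∈ B.X ia) (k : α p ≠ 0) => W.step_gov (γ := γ) (update_mem hx hp) hx'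
      hx'' ha hc hac hn hD.aU fun v hv w hw hi => ((sα p k v hv).2 w hw hi).2
    have eU : ∀ p, ∀ i ∈ U, kk (update x ia p i) - kk (x'' i) = kk (x i) - kk (x'' i) :=
      fun p i hi => by rw [update_of_ne (ne_of_mem_of_not_mem hi ha)]
    have k := hc0 (Fin B.r) U B.Z (B.t i0) (B.t ia) (B.t ic) (B.X ia) (B.X ic) x'' x (x' ia)
      (a.2 ia) (b.2 ic) α β rfl hZ (rg ia hD.ha) (rg ic hD.hc)
      (disjoint_left.2 fun p h1 h2 => hac (W.disj _ _ p h1 h2))
      (fun i hi => ⟨W.c_pr hx'' i, W.c_pr hx i, W.c_ne3 hx'' i, W.c_ne3 hx i,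
        (hB.rng i _ (c_mem hx'' i)).2.trans (Nat.mul_le_mul_left _ (ht i hi)),
        (hB.rng i _ (c_mem hx i)).2.trans (Nat.mul_le_mul_left _ (ht i hi)), W.c_nM hx'' i,
        W.c_nM hx i⟩)
      (fun i hi j _ => ⟨fun e => ne i hi (by
        rw [← W.c_inj hx'' hx e] at e
        exact e.symm), W.c_inj hx'' hx'', W.c_inj hx hx⟩) (fun p hp => (W.t1 ia p hp).1 hD.pa)
      (fun p hp => (W.t1 ic p hp).1 hD.pc) hD.aa hD.bc hα hβ (fun p hp k => ⟨?_, fun i hi => ?_⟩)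
      fun r hr k i hi => ?_
    · have pa : (0 : ℝ) < (B.X ia).card := Nat.cast_pos.2 (W.ne ia).card_pos
      have pc : (0 : ℝ) < (B.X ic).card := Nat.cast_pos.2 (W.ne ic).card_pos
      simp only [expect_eq_sum_div_card]
      rw [← sum_div, norm_div, norm_div, Complex.norm_natCast, Complex.norm_natCast, div_div,
        div_le_iff₀ (mul_pos pc pa), one_div, inv_mul_eq_div, mul_comm]
      refine le_of_eq_of_le (congrArg norm (sum_congr rfl fun p hp => sum_congr rfl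
        fun r _ => ?_)) k
      by_cases h0 : α p = 0
      · rw [h0, zero_mul, zero_mul, zero_mul]
      have e := (G p hp h0).2 r (fq r)
      rw [update_self, gov_congr (eU p)] at e
      rw [← e, mul_sum]
      congr 2
      refine sum_congr rfl fun v hv => ?_
      rw [piecewise_eq_of_notMem _ _ _ fun k => hc (mem_powerset.1 hv k), update_self,
        mul_left_comm]
    · obtain ⟨Φ, e⟩ := (G p hp k).1
      rw [update_self] at e
      exact ⟨Φ, e.congr (eU p)⟩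
    · have y := update_mem hx hp
      have s0 := ((sα p k ∅ (empty_subset _)).2 {ic} (by simp) (mem_singleton_self _)).1
      have s1 := ((sα p k U Subset.rfl).2 {ic} (by simp) (mem_singleton_self _)).1
      rw [piecewise_empty] at s0
      have e := W.step_frob y hx' hx'' ha hc hac.symm
        ((hF _ (c_pw (c_pw y hx'' U) hx' _) s1).1.trans (hF _ (c_pw y hx' _) s0).1.symm) hi
      rwa [update_self, update_of_ne (ne_of_mem_of_not_mem hi ha), eq_comm] at e
    · have y := update_mem hx hr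
      have s0 := ((sβ r k ∅ (empty_subset _)).2 {ia} (by simp) (mem_singleton_self _)
        (by simp [hac.symm])).1
      have s1 := ((sβ r k U Subset.rfl).2 {ia} (by simp) (mem_singleton_self _)
        (by simp [hac.symm])).1
      rw [piecewise_empty] at s0
      have e := W.step_frob y hx' hx'' hc ha hac
        ((hF _ (c_pw (c_pw y hx'' U) hx' _) s1).1.trans (hF _ (c_pw y hx' _) s0).1.symm) hi
      rwa [update_self, update_of_ne (ne_of_mem_of_not_mem hi hc), eq_comm] at e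
  · rw [one_div_pow, ← pow_mul]
    exact step_num hZ (U.card + 2) (by omega) le_rfl

theorem Wf.sum_RF (hB : B.Wf) (hx : x ∈ B.pts) {Γ : Finset B.Col}
    (h : ∀ c, Pre (B.nn x) l c → B.col x c ∈ Γ) (f : (Gam → A) → ℂ) :
    ∑ c ∈ B.RF x l a, f c = ∑ γ ∈ Γ, ind (B.Has l a γ x) * f (B.cg l a γ x) := by
  simp only [ind, ite_mul, one_mul, zero_mul]
  rw [← sum_filter]
  exact sum_nbij' (B.col x) (fun γ => B.cg l a γ x)
    (fun c hc => mem_filter.2 ⟨h c (mem_of_fs hc).1.toPre, c, hc, rfl⟩)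
    (fun γ hγ => (hB.mem_RF hx).2 ⟨(mem_filter.1 hγ).2.spec.1, (mem_filter.1 hγ).2.spec.2.1⟩)
    (fun c hc => hB.cg_eq hx hc rfl) (fun γ hγ => (mem_filter.1 hγ).2.spec.2.2)
    fun c hc => by rw [hB.cg_eq hx hc rfl]

/-- Cancellation in the sum of the pairing. -/
theorem step (ana : AnaStmt) (l E : ℕ) (h2 : 2 ≤ l) (he : Even l) : ∃ c, ∀ B : Bx, B.Hyp c →
    ∀ a b U ia ic (F : B.Lv) (Q : B.Pt → Prop), B.Dir (l - 1) a b U ia ic →
    B.Closed (insert ia (insert ic U)) Q → (∀ x ∈ B.pts, Q x → B.lv x = F ∧ b ∈ B.V x) →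
    ‖∑ x ∈ B.pts.filter Q, ∑ c ∈ B.RF x l a, ee (B.Dx x c b)‖ ≤ B.pts.card / B.Z ^ E := by
  obtain ⟨n, rfl⟩ : ∃ n, l = n + 1 := ⟨l - 1, by omega⟩
  obtain ⟨K, hK⟩ := card_col (n + 1)
  obtain ⟨E1, hE⟩ := pow_le_Z (K + 1)
  obtain ⟨c, hc⟩ := step_col ana n (E1 + E) (Nat.not_even_iff_odd.1 (Nat.even_add_one.1 he))
  refine ⟨c, fun B hB a b U ia ic F Q hD hQ hF => ?_⟩
  obtain ⟨Γ, g1, g2⟩ := hK B hB.wf F
  have h0 : 0 < B.Z := zero_lt_two.trans_le hB.two_le
  have hne : B.pts.Nonempty := Fintype.piFinset_nonempty.2 hB.wf.ne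
  have g3 : (Γ.card : ℝ) ≤ B.Z ^ E1 := by
    refine le_trans ?_ (hE B hB.pos hB.le1)
    exact_mod_cast g1.trans ((Nat.pow_le_pow_left K.le_succ _).trans
      (Nat.pow_le_pow_right K.succ_pos (Nat.le_self_pow two_ne_zero _)))
  have e : ∑ x ∈ B.pts.filter Q, ∑ c ∈ B.RF x (n + 1) a, ee (B.Dx x c b) = ∑ γ ∈ Γ, B.pts.card *
      𝔼 x ∈ B.pts, ind (Q x ∧ B.Has (n + 1) a γ x) * ee (B.Dx x (B.cg (n + 1) a γ x) b) := by
    simp only [card_mul_expect]
    rw [sum_comm, sum_filter]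
    refine sum_congr rfl fun x hx => ?_
    split_ifs with q
    · simp only [q, true_and]
      exact hB.wf.sum_RF hx (g2 x hx (hF x hx q).1) _
    · simp [q, ind]
  rw [e]
  refine (norm_sum_le _ _).trans ((sum_le_card_nsmul _ _ (B.pts.card * (1 / B.Z ^ (E1 + E)))
    fun γ _ => ?_).trans ?_)
  · rw [norm_mul, Complex.norm_natCast]
    exact mul_le_mul_of_nonneg_left (hc B hB a b U ia ic F Q γ hD hQ hF) (Nat.cast_nonneg _)
  · rw [nsmul_eq_mul]
    refine (mul_le_mul_of_nonneg_right g3 (by positivity)).trans_eq ?_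
    rw [pow_add]
    field_simp

end Bx

end Pool.Agent.Lib.MP_696deb_nt.CU.CV.Cy
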