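import Pool.Agent.Lib.MP_696deb_nt.CY.Comb
import Pool.Agent.Lib.MP_696deb_nt.CY.Step
import Pool.Agent.Lib.MP_696deb_nt.CU.Key

/-! Conditioning on the matrix of the pairing. -/

set_option autoImplicit false
set_option linter.unusedSectionVars false

open scoped Classical
open Finset

namespace Pool.Agent.Lib.MP_696deb_nt.CU.CV.Cy

variable [δ : Qd]

namespace Bx

/-- One row of the matrix. -/
theorem comb_row : ∃ K : ℕ, ∀ B : Bx, B.Wf → ∀ S : Finset (Fin B.r), 4 ≤ S.card → ∀ z ∈ B.pts,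
    ∀ a ∈ B.V z, B.Comb S ((K : ℝ) ^ (B.r + B.k0 + 1)) fun x =>
      B.lv x = B.lv z ∧ ∀ b ∈ B.V z, B.CT x a b = B.CT z a b := by
  obtain ⟨K, hK⟩ := card_col 2
  refine ⟨K, fun B hB S hS z hz a ha => ?_⟩
  obtain ⟨Γ, g1, g2⟩ := hK B hB (B.lv z)
  have hw : (1 : ℝ) ≤ B.wB := Nat.one_le_cast.2 (wB_pos hB)
  have hm : ∀ {γ x}, x ∈ B.pts → B.Has 2 a γ x → B.cg 2 a γ x ∈ B.RF x 2 a := fun hx h =>
    (hB.mem_RF hx).2 ⟨h.spec.1, h.spec.2.1⟩
  refine ⟨_, Γ, 1 / B.wB, fun γ x => (B.lv x = B.lv z ∧ B.Has 2 a γ x) ∧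
    ∀ b ∈ B.V z, B.Dx x (B.cg 2 a γ x) b = B.CT z a b, by positivity, ?_,
    fun γ _ => ⟨fun x x' hC h => ?_, fun x hx h => ⟨h.1.1, fun b hb => ?_⟩⟩, fun x hx h => ?_⟩
  · exact (mul_le_of_le_one_left (Nat.cast_nonneg _) (div_le_one_of_le₀ hw (by positivity))).trans
      (by exact_mod_cast g1)
  · have h0 := closed_has (l := 2) (by omega) (by omega) a γ (B.lv z) x x' hC
      fun y hy k => (h y hy k).1
    refine ⟨h0, fun b hb => ?_⟩
    have h1 : ∀ w ⊆ S, B.lv (w.piecewise x' x) = B.lv z ∧ B.Has 2 a γ (w.piecewise x' x) :=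
      fun w hw => by
        rcases w.eq_empty_or_nonempty with rfl | k
        · rwa [piecewise_empty]
        · exact (h w hw k).1
    have h2 := hB.dD_zero (l := 2) hC.mem hC.mem' hS (by omega) fun w hw =>
      ⟨(h1 w hw).1, (h1 w hw).2, lv_V hB (c_pw hC.mem hC.mem' w) hz (h1 w hw).1 ▸ hb⟩
    have h3 := key_base (card_pos.1 (by omega)) ((alt_ring S _).trans h2)
      fun w hw k => (h w hw k).2 b hb
    rwa [piecewise_empty] at h3
  · exact (dx_two hB hx (hm hx h.1.2) (lv_V hB hx hz h.1.1 ▸ hb)).symm.trans (h.2 b hb)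
  · have e := lv_V hB hx hz h.1
    rw [card_nbij' (t := B.RF x 2 a) (fun γ => B.cg 2 a γ x) (B.col x)
      (fun γ hγ => hm hx ((@mem_filter _ _ (_) _ _).1 hγ).2.1.2)
      (fun c hc => (@mem_filter _ _ (_) _ _).2 ⟨g2 x hx h.1 c (mem_of_fs hc).1.toPre,
        ⟨h.1, c, hc, rfl⟩, fun b hb => by
          rw [hB.cg_eq hx hc rfl, dx_two hB hx hc (e ▸ hb), h.2 b hb]⟩)
      (fun γ hγ => ((@mem_filter _ _ (_) _ _).1 hγ).2.1.2.spec.2.2)
      fun c hc => hB.cg_eq hx hc rfl,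
      card_RF_two hB hx (e ▸ ha), one_div_mul_cancel (by positivity)]

theorem comb_key : ∃ E : ℕ, ∀ B : Bx, B.Hyp 0 → ∀ S : Finset (Fin B.r), 4 ≤ S.card → ∀ z ∈ B.pts,
    B.Comb S (B.Z ^ E) fun x => B.key x = B.key z := by
  obtain ⟨K, hK⟩ := comb_row
  obtain ⟨E, hE⟩ := pow_le_Z ((K + 1) ^ (K3 + 1))
  refine ⟨E, fun B hB S hS z hz => ?_⟩
  obtain ⟨v, h1, h2⟩ := B.exists_gen z
  have W := hB.wf
  refine (((closed_lv (by omega) (B.lv z)).comb.and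
    (Comb.all univ fun i _ => hK B W S hS z hz (v i) (h1 i))).mono ?_).congr fun x hx => ?_
  · refine le_trans ?_ (hE B hB.pos hB.le1)
    rw [one_mul, ← pow_mul, card_univ, Fintype.card_fin, Nat.cast_pow, ← pow_mul, pow_two,
      mul_left_comm]
    exact_mod_cast (Nat.pow_le_pow_left K.le_succ _).trans
      (Nat.pow_le_pow_right K.succ_pos (Nat.mul_le_mul_left _ (dm_le W)))
  · rw [key_iff W hx hz]
    refine and_congr_right fun e => ⟨fun h a ha b hb => ?_, fun h i _ => ⟨e, h _ (h1 i)⟩⟩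
    obtain ⟨s, rfl⟩ := h2 a ha
    have e' := lv_V W hx hz e
    rw [fibB_left W hx (fun i => e' ▸ h1 i) (e' ▸ hb), fibB_left W hz h1 hb]
    exact sum_congr rfl fun i hi => by rw [(h i hi).2 b hb]

theorem step_key (ana : AnaStmt) (m E : ℕ) (hm : 1 ≤ m) : ∃ c : ℕ, ∀ B : Bx, B.Hyp c →
    ∀ z ∈ B.pts, ∀ (a b : B.Pat) (U : Finset (Fin B.r)) (ia ic : Fin B.r),
      B.Dir (2 * m + 1) a b U ia ic → b ∈ B.V z →
      ‖∑ x ∈ B.pts with B.key x = B.key z, ∑ c ∈ B.RF x (2 * m + 2) a, ee (B.Dx x c b)‖ ≤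
        B.pts.card / B.Z ^ E := by
  obtain ⟨E0, h0⟩ := comb_key
  obtain ⟨c, hc⟩ := step ana (2 * m + 2) (E + E0) (by omega) ⟨m + 1, by ring⟩
  refine ⟨c, fun B hB z hz a b U ia ic hD hb => ?_⟩
  have hZ : 0 < B.Z := zero_lt_two.trans_le hB.two_le
  have hS : (insert ia (insert ic U)).card = 2 * m + 1 + 2 := by
    rw [card_insert_of_notMem (by simp [hD.ha' hB, hD.ne]), card_insert_of_notMem (hD.hc' hB),
      hD.card]
  refine ((h0 B (hB.mono c.zero_le) _ (by omega) z hz).bound _ (by positivity) fun P hP h =>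
    hc B hB a b U ia ic (B.lv z) P hD hP fun x hx k => ?_).trans_eq ?_
  · have e := ((key_iff hB.wf hx hz).1 (h x hx k)).1
    exact ⟨e, lv_V hB.wf hx hz e ▸ hb⟩
  · rw [pow_add]
    field_simp

end Bx

end Pool.Agent.Lib.MP_696deb_nt.CU.CV.Cy
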