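import Pool.Agent.Lib.MP_696deb_nt.CY.SA
import Pool.Agent.Lib.MP_696deb_nt.CV.SB

/-! Selmer patterns. -/

set_option autoImplicit false
set_option linter.unusedSectionVars false

open scoped Classical
open Finset

namespace Pool.Agent.Lib.MP_696deb_nt.CU.CV.Cy

namespace Bx

variable [δ : Qd] {B : Bx} {e : ℕ} {x : B.Pt} {a b : B.Pe e} {c : Gam → A} {l : ℕ}

theorem sc_prime (h : B.Wf) (hx : x ∈ B.pts) (j : Fin B.r) : (x j).Prime := h.pr hx j

theorem sc_dvd (h : B.Wf) (hx : x ∈ B.pts) (j : Fin B.r) : x j ∣ MM * B.nn x :=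
  (h.dvd_iff hx (h.pr hx j)).2 (.inr ⟨j, rfl⟩)

theorem sc_sq (h : B.Wf) (hx : x ∈ B.pts) (j : Fin B.r) : kk (B.n1 x) (sq (x j)) = 1 := by
  have hp := h.pr hx j
  have h3 := h.ne_three hx j
  rw [kk_nn h hx, kk_ine hp h3 (fun k => h.cop j _ (mem_pts.1 hx j) (k.mul_left _)) (sq_ine hp h3),
    zero_add, sum_eq_single j (fun i _ k => kk_ine hp h3 (fun d => k (h.inj hx
      ((Nat.prime_dvd_prime_iff_eq hp (h.pr hx i)).1 d)).symm) (sq_ine hp h3)) (by simp),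
    kk_sq_self hp h3]

theorem sc_zero {t : F3} (h : kT t = 0) : t = 0 := kT_inj (h.trans (map_zero kT).symm)

theorem te_sup (B : Bx) (e : ℕ) : B.te e ∈ B.Sup e := fun _ _ => rfl

theorem te_mem (e : ℕ) (x : B.Pt) : B.te e ∈ B.Ve e x :=
  mem_Ve.2 ⟨B.te_sup e, by rw [kE_te]; exact mu_mem_Zs _ e⟩

theorem Le_le (e : ℕ) (x : B.Pt) : B.Le e ≤ B.Ve e x :=
  AddSubgroup.zmultiples_le_of_mem (te_mem e x)

theorem tau_mem (x : B.Pt) : B.tau ∈ B.V x := te_mem 1 x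

theorem L1_le (x : B.Pt) : B.L1 ≤ B.V x := Le_le 1 x

theorem kE_inj (h : B.Wf) (hx : x ∈ B.pts) (ha : a ∈ B.Sup e) (hb : b ∈ B.Sup e)
    (k : B.kE e x a = B.kE e x b) : a = b := by
  have h2 : a.2 = b.2 := funext fun j => by rw [← kE_sq h hx ha, k, kE_sq h hx hb]
  refine Prod.ext (Subtype.ext (funext fun g => ?_)) h2
  have := congrFun k g
  rwa [kE_apply, kE_apply, h2, add_left_inj] at this

theorem sc_dec (h : B.Wf) (hx : x ∈ B.pts) {u : Gam → F3} (hu : u ∈ KK (B.nn x) e) :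
    ∃ a ∈ B.Sup e, B.kE e x a = u := by
  have s : ((0, fun j => u (sq (x j))) : B.Pe e) ∈ B.Sup e := fun j k =>
    (hu.1.mono le_top).ev (h.pr hx j) (h.ndvd hx j) (mt (mem_P h hx).2 k)
  have m : u - B.kE e x (0, fun j => u (sq (x j))) ∈ B.W e := by
    refine (mem_W h).2 ⟨hu.1.sub (kc_kE x _), fun q hq k => ?_⟩
    by_cases d : q ∣ MM * B.nn x
    · rcases (h.dvd_iff hx hq).1 d with k' | ⟨i, rfl⟩
      · exact absurd (Nat.dvd_of_mem_primeFactors k') k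
      · rw [Pi.sub_apply, kE_sq h hx s, sub_self]
    · rw [Pi.sub_apply, hu.2 q hq d, kE_unr h hx _ hq d, sub_zero]
  refine ⟨(⟨_, m⟩, fun j => u (sq (x j))), s, funext fun g => ?_⟩
  simp only [kE_apply, Pi.sub_apply, Submodule.coe_zero, Pi.zero_apply, zero_add, sub_add_cancel]

theorem exists_pat (h : B.Wf) (hx : x ∈ B.pts) (hc : c ∈ Zs (B.nn x) e 1) :
    ∃ a ∈ B.Ve e x, c = kC (B.kE e x a) := by
  obtain ⟨u, hu, rfl⟩ := zs_one hc
  obtain ⟨a, ha, rfl⟩ := sc_dec h hx (u := u) ⟨hu, fun q hq d => sc_zero (hc.unr q hq d)⟩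
  exact ⟨a, ⟨ha, hc⟩, rfl⟩

theorem card_Z1 (h : B.Wf) (hx : x ∈ B.pts) : Nat.card (Zs (B.nn x) 1 1) ≤ (B.VF x).card := by
  refine (Nat.card_le_card_of_surjective (fun p : B.VF x =>
    (⟨kC (B.kA x p), (mem_VF.1 p.2).2⟩ : Zs (B.nn x) 1 1)) fun c => ?_).trans_eq
    (Nat.card_eq_finsetCard _)
  obtain ⟨a, ha, e⟩ := exists_pat h hx c.2
  exact ⟨⟨a, mem_VF.2 ha⟩, Subtype.ext e.symm⟩

/-- Membership in terms of local conditions at the small primes and rows. -/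
theorem mem_Ve_iff (h : B.Wf) (hx : x ∈ B.pts) : a ∈ B.Ve e x ↔ a ∈ B.Sup e ∧
    (∀ q ∈ B.S0, Loc (B.nn x) e q (kC (B.kE e x a))) ∧
      ∀ j ∈ B.P (e + 1), B.kE e x a (fq (x j)) = a.2 j * kk (B.n1 x) (fq (x j)) := by
  refine and_congr_right fun ha => ?_
  have f := fun j => f1 (h.pr hx j) (h.ndvd hx j) (sc_sq h hx j) ((kc_kE x a).mono le_top)
  simp only [kE_sq h hx ha, ← mem_P' h hx] at f
  refine ⟨fun k => ⟨fun q hq => ?_, fun j => (f j).1 (IsZ.loc k _ (h.pr hx j) (sc_dvd h hx j))⟩,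
    fun k => ⟨coc_kC.2 (kc_kE x a), fun g => pow_one th ▸ th_kT _, fun q hq d => ?_,
    fun q hq d => (congrArg kT (kE_unr h hx a hq d)).trans (map_zero _)⟩⟩
  · have p := Nat.prime_of_mem_primeFactors hq
    exact IsZ.loc k q p ((h.dvd_iff hx p).2 (.inl hq))
  · rcases (h.dvd_iff hx hq).1 d with k' | ⟨j, rfl⟩
    exacts [k.1 q k', (f j).2 (k.2 j)]

variable (e x) in
/-- The local data of a pattern. -/
noncomputable def sc_phi : B.Sup e →+ (Gam → F3) × (B.S0 → F3 × F3) × (B.P (e + 1) → F3) :=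
  AddMonoidHom.mk' (fun a => (rsM (B.kE e x a),
    fun q => (B.kE e x a (sq q), B.kE e x a (fq q)),
    fun j => B.kE e x a (fq (x j)) - a.1.2 j * kk (B.n1 x) (fq (x j)))) fun a b => by
      refine Prod.ext (by simp only [AddSubgroup.coe_add, map_add, Prod.fst_add])
        (Prod.ext (funext fun q => ?_) (funext fun j => ?_))
      · simp only [AddSubgroup.coe_add, map_add, Pi.add_apply, Prod.mk_add_mk]
      · simp only [AddSubgroup.coe_add, map_add, Pi.add_apply, Prod.snd_add]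
        ring

theorem sc_ker (h : B.Wf) (hx : x ∈ B.pts) {a : B.Sup e} (ha : a ∈ (sc_phi e x).ker) :
    a.1 ∈ B.Ve e x := by
  have k : sc_phi e x a = 0 := ha
  refine (mem_Ve_iff h hx).2 ⟨a.2, fun q hq => ⟨0, fun g hg => ?_⟩, fun j hj =>
    sub_eq_zero.1 (congrFun (congrArg (·.2.2) k) ⟨j, hj⟩)⟩
  have p := Nat.prime_of_mem_primeFactors hq
  rw [cob_zero, ← map_zero kT]
  refine congrArg kT ?_
  by_cases d : q ∣ MM
  · exact (rsM_of_mem (mem_GM p d hg) _).symm.trans (congrFun (congrArg (·.1) k) g)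
  · have := congrFun (congrArg (·.2.1) k) ⟨q, hq⟩
    exact ((kc_kE x a.1).mono le_top).det p d (congrArg (·.1) this) (congrArg (·.2) this) hg

theorem card_Ve (h : B.Wf) (hx : x ∈ B.pts) (e : ℕ) :
    Fintype.card (B.W e) * 3 ^ (B.P e).card ≤
      K3 * 9 ^ B.k0 * 3 ^ (B.P (e + 1)).card * (univ.filter (· ∈ B.Ve e x)).card := by
  rw [← card_Sup, ← (sc_phi e x).ker.card_mul_index, AddSubgroup.index_ker, mul_comm]
  refine Nat.mul_le_mul ?_ ?_
  · have k : SetLike.coe (sc_phi e x).range ⊆ Z3 e ×ˢ Set.univ := by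
      rintro _ ⟨a, rfl⟩
      exact ⟨rsM_mem (kc_kE x a.1), trivial⟩
    refine (Set.ncard_le_ncard k ((finite_Z3 e).prod Set.finite_univ)).trans ?_
    rw [Set.ncard_prod, Set.ncard_univ, mul_assoc]
    refine Nat.mul_le_mul (card_Z3 e) (le_of_eq ?_)
    simp [k0]
  · rw [← Nat.card_eq_finsetCard]
    exact Nat.card_le_card_of_injective (fun a => ⟨a.1.1, mem_filter.2 ⟨mem_univ _,
      sc_ker h hx a.2⟩⟩) fun a b k => Subtype.ext (Subtype.ext (Subtype.mk.inj k))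

theorem card_V (h : B.Wf) (hx : x ∈ B.pts) : Fintype.card (B.W 1) * 3 ^ B.P1.card ≤
    K3 * 9 ^ B.k0 * 3 ^ B.P0.card * (B.VF x).card := card_Ve h hx 1

theorem card_KK_nn (h : B.Wf) (hx : x ∈ B.pts) (e : ℕ) :
    (KK (B.nn x) e : Set (Gam → F3)).ncard = Fintype.card (B.W e) * 3 ^ (B.P e).card := by
  rw [← card_Sup, ← Nat.card_coe_set_eq]
  refine (Nat.card_eq_of_bijective (fun a : B.Sup e => ⟨B.kE e x a, kE_mem h hx _⟩)
    ⟨fun a b k => Subtype.ext (kE_inj h hx a.2 b.2 (congrArg Subtype.val k)), fun u => ?_⟩).symm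
  obtain ⟨a, ha, k⟩ := sc_dec h hx u.2
  exact ⟨⟨a, ha⟩, Subtype.ext k⟩

theorem card_WW_nn (h : B.Wf) (hx : x ∈ B.pts) : (WW (B.nn x)).ncard = B.wB :=
  (card_KK_nn h hx 0).trans (by rw [card_W_eq h]; rfl)

theorem wB_pos (h : B.Wf) : 0 < B.wB := mul_pos (card_WW_pos h.n0) (by positivity)

theorem kE_smul_te (e : ℕ) (x : B.Pt) (s : F3) :
    B.kE e x (s • B.te e) = fun g => s * (mu e g - 1) := funext fun g => by rw [kE_smul, kE_te]

theorem G1.bot (h : B.Wf) (hx : x ∈ B.pts) (k : B.G1 x) : Tv (B.nn x) := fun c hc => by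
  obtain ⟨a, ha, rfl⟩ := exists_pat h hx hc
  obtain ⟨s, rfl⟩ := mem_Le.1 (k ha)
  exact ⟨s, by rw [kE_smul_te]⟩

theorem B1p.ge (h : B.Wf) (hx : x ∈ B.pts) (k : B.B1p x) (e : ℕ) : B.Ge e x := by
  intro a ha hu
  obtain ⟨s, hs⟩ := k e (B.kE e x a) (kc_kE x a) (fun q hq d d' => by
    by_cases m : q ∣ MM * B.nn x
    · obtain ⟨j, rfl⟩ := ((h.dvd_iff hx hq).1 m).resolve_left (mt (mem_S0 h hq).1 d)
      rw [kE_sq h hx ha.1, hu j (by_contra fun hj => d' j hj rfl)]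
    · exact kE_unr h hx a hq m) fun j hj m => by
    rw [((mem_Ve_iff h hx).1 ha).2.2 j ((mem_P' h hx).2 m), hu j hj, zero_mul]
  exact mem_Le.2 ⟨s, kE_inj h hx ha.1 (smul_mem_Sup (B.te_sup e) s)
    ((funext hs).trans (kE_smul_te e x s).symm)⟩

theorem B1p.g0 (h : B.Wf) (hx : x ∈ B.pts) (k : B.B1p x) : B.G0 x := k.ge h hx 1

end Bx

end Pool.Agent.Lib.MP_696deb_nt.CU.CV.Cy
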