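import Pool.Agent.Lib.MP_696deb_nt.CY.Core
import Pool.Agent.Lib.MP_696deb_nt.CW.Core
import Pool.Agent.Lib.MP_696deb_nt.CX.Top

/-! The corank and the rank of `y ^ 2 = x ^ 3 + k n ^ 4`. -/

set_option autoImplicit false

open scoped Classical

namespace Pool.Agent.Lib.MP_696deb_nt.CX

open CU
open CU.CV (Qd)

variable {n c : ℕ} {D k : ℤ}

theorem tw4 (hk : k ≠ 0) (hn : n ≠ 0) :
    Tw (k * (n : ℤ) ^ 4) (-3 * k) (2 * k.natAbs ^ 2 * n ^ 2) :=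
  ⟨mul_ne_zero (mul_ne_zero two_ne_zero (pow_ne_zero 2 (Int.natAbs_ne_zero.2 hk)))
    (pow_ne_zero 2 hn), by
    push_cast
    rw [sq_abs]
    ring⟩

theorem alm_gro4 (hD : D ≠ 0) (hc : c ≠ 0) :
    ∃ δ : Qbar, δ ^ 2 = D ∧ Alm fun n => GroA (ac δ (c * n ^ 2)) 3 := by
  have h := B2.rt_sq D
  have c1 : Alm fun n => Gro (c * n ^ 2) 3 := Cw.core2c hc
  have c0 : ∀ n, n ≠ 0 → c * n ^ 2 ≠ 0 := fun n hn => mul_ne_zero hc (pow_ne_zero 2 hn)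
  by_cases h0 : IsSquare D
  · exact ⟨_, h, c1.mono fun n hn e => ac_one (fix_of_sq h h0) _ ▸ gro_one (c0 n hn) e⟩
  by_cases h1 : IsSquare (-3 * D)
  · exact ⟨_, h, c1.mono fun n hn e =>
      ac_zero (sg_of_sq (B2.b1b_rt_ne hD) h h1) _ ▸ gro_zero (c0 n hn) e⟩
  obtain ⟨δ, rfl⟩ := exists_Qd h0 h1
  exact ⟨_, δ.h0, Alm.mono (P := fun n => CV.Gro (c * n ^ 2) 3) (CV.Cy.core2c hc) fun n hn e =>
    gro_cv (fun l => CV.finite_Zs (c0 n hn) 1 l) e⟩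

theorem top4 (hk : k ≠ 0) : Alm fun n => Good (Ek (k * (n : ℤ) ^ 4)) 1 := by
  obtain ⟨δ, h1, h2⟩ := alm_gro4 (D := -3 * k) (c := 2 * k.natAbs ^ 2)
    (mul_ne_zero (by norm_num) hk)
    (mul_ne_zero two_ne_zero (pow_ne_zero 2 (Int.natAbs_ne_zero.2 hk)))
  exact h2.mono fun n hn e => link (tw4 hk hn) h1 e

end Pool.Agent.Lib.MP_696deb_nt.CX
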